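import Mathlib

/-! Sum-product for integers with few prime factors: common definitions. -/

open Finset

namespace Pool.Agent.H116SP

/-- Number of elements of `X` congruent to `x` modulo `p ^ l`. -/
def cnt (p : ℕ) (X : Finset ℕ) (l x : ℕ) : ℕ := (X.filter fun y => y ≡ x [MOD p ^ l]).card

/-- Level `l` is special for `x`: at least a proportion `1/Q` of the class of `x` mod `p ^ l` leaves
the class of `x` mod `p ^ (l+1)`. -/
def Spec (p Q : ℕ) (X : Finset ℕ) (l x : ℕ) : Prop :=
  Q * cnt p X (l + 1) x < (Q - 1) * cnt p X l x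

/-- Level `l` is light for `x`. -/
def Light (p Q : ℕ) (X : Finset ℕ) (l x : ℕ) : Prop :=
  Q * cnt p X (l + 1) x ≤ cnt p X l x

/-- `J`-part of `a`. -/
def part (J : Finset ℕ) (a : ℕ) : ℕ := ∏ p ∈ J, p ^ a.factorization p

/-- `J`-free part of `a`. -/
def free (J : Finset ℕ) (a : ℕ) : ℕ := a / part J a

/-- `A + A` and `A * A`. -/
def sums (A : Finset ℕ) : Finset ℕ := (A ×ˢ A).image fun x => x.1 + x.2
def prods (A : Finset ℕ) : Finset ℕ := (A ×ˢ A).image fun x => x.1 * x.2

end Pool.Agent.H116SP
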