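import Mathlib
import Pool.Agent.H116SP.Defs

/-! M1: the p-adic tree of a finite set. -/

open Finset

namespace Pool.Agent.H116SP

variable {p Q : ℕ} {X : Finset ℕ}

theorem cnt_congr {l x y : ℕ} (h : x ≡ y [MOD p ^ l]) : cnt p X l x = cnt p X l y := by
  unfold cnt
  congr 1
  ext z
  simp only [mem_filter]
  constructor
  · rintro ⟨h1, h2⟩; exact ⟨h1, h2.trans h⟩
  · rintro ⟨h1, h2⟩; exact ⟨h1, h2.trans h.symm⟩

theorem cnt_pos {l x : ℕ} (hx : x ∈ X) : 1 ≤ cnt p X l x := by
  unfold cnt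
  exact card_pos.mpr ⟨x, mem_filter.mpr ⟨hx, Nat.ModEq.refl _⟩⟩

theorem modEq_succ {l x y : ℕ} (h : x ≡ y [MOD p ^ (l + 1)]) : x ≡ y [MOD p ^ l] :=
  h.of_dvd (pow_dvd_pow p (Nat.le_succ l))

theorem cnt_succ_le {l x : ℕ} : cnt p X (l + 1) x ≤ cnt p X l x := by
  unfold cnt
  refine card_le_card fun z hz => ?_
  rw [mem_filter] at hz ⊢
  exact ⟨hz.1, modEq_succ hz.2⟩

theorem cnt_zero {x : ℕ} : cnt p X 0 x = X.card := by
  unfold cnt
  congr 1
  rw [filter_true_of_mem]
  intro y _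
  rw [pow_zero]
  exact Nat.modEq_one

theorem cnt_add_le {l x y : ℕ} (h : y ≡ x [MOD p ^ l]) (hn : ¬ y ≡ x [MOD p ^ (l + 1)]) :
    cnt p X (l + 1) x + cnt p X (l + 1) y ≤ cnt p X l x := by
  unfold cnt
  rw [← card_union_of_disjoint]
  · refine card_le_card fun z hz => ?_
    rw [mem_union, mem_filter, mem_filter] at hz
    rw [mem_filter]
    rcases hz with hz | hz
    · exact ⟨hz.1, modEq_succ hz.2⟩
    · exact ⟨hz.1, (modEq_succ hz.2).trans h⟩
  · rw [disjoint_left]
    intro z hz hz'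
    rw [mem_filter] at hz hz'
    exact hn (hz'.2.symm.trans hz.2)

/-- Lemma A -/
theorem light_of_not_spec {l x y : ℕ} (hQ : 1 ≤ Q) (h : y ≡ x [MOD p ^ l])
    (hn : ¬ y ≡ x [MOD p ^ (l + 1)]) (hs : ¬ Spec p Q X l x) : Light p Q X l y := by
  unfold Spec at hs
  unfold Light
  rw [not_lt] at hs
  have h1 := cnt_add_le (X := X) h hn
  rw [cnt_congr (X := X) h]
  obtain ⟨q, rfl⟩ : ∃ q, Q = q + 1 := ⟨Q - 1, by omega⟩
  simp only [Nat.add_sub_cancel] at hs
  nlinarith

/-- Lemma B -/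
theorem modEq_of_not_spec {l x y : ℕ} (hQ : 3 ≤ Q) (hx : x ∈ X) (h : y ≡ x [MOD p ^ l])
    (hs : ¬ Spec p Q X l x) (hs' : ¬ Spec p Q X l y) : y ≡ x [MOD p ^ (l + 1)] := by
  by_contra hn
  unfold Spec at hs hs'
  rw [not_lt] at hs hs'
  have h1 := cnt_add_le (X := X) h hn
  rw [cnt_congr (X := X) h] at hs'
  have h2 := cnt_pos (p := p) (l := l) hx
  obtain ⟨q, rfl⟩ : ∃ q, Q = q + 3 := ⟨Q - 3, by omega⟩
  have h3 : q + 3 - 1 = q + 2 := by omega
  rw [h3] at hs hs'
  nlinarith

theorem light_pow {x : ℕ} (T : Finset ℕ) (hT : ∀ l ∈ T, Light p Q X l x) (s : ℕ) :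
    Q ^ (T.filter (· < s)).card * cnt p X s x ≤ X.card := by
  induction s with
  | zero => simp [cnt_zero]
  | succ s ih =>
    by_cases hs : s ∈ T
    · have h1 : T.filter (· < s + 1) = insert s (T.filter (· < s)) := by
        ext l
        simp only [mem_filter, mem_insert]
        constructor
        · rintro ⟨h1, h2⟩
          rcases Nat.lt_succ_iff_lt_or_eq.mp h2 with h | h
          · exact Or.inr ⟨h1, h⟩
          · exact Or.inl h
        · rintro (rfl | ⟨h1, h2⟩)
          · exact ⟨hs, Nat.lt_succ_self _⟩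
          · exact ⟨h1, Nat.lt_succ_of_lt h2⟩
      rw [h1, card_insert_of_notMem (by simp), pow_succ]
      have h2 := hT s hs
      unfold Light at h2
      calc Q ^ (T.filter (· < s)).card * Q * cnt p X (s + 1) x
          = Q ^ (T.filter (· < s)).card * (Q * cnt p X (s + 1) x) := by ring
        _ ≤ Q ^ (T.filter (· < s)).card * cnt p X s x := Nat.mul_le_mul_left _ h2
        _ ≤ _ := ih
    · have h1 : T.filter (· < s + 1) = T.filter (· < s) := by
        ext l
        simp only [mem_filter]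
        constructor
        · rintro ⟨h1, h2⟩
          rcases Nat.lt_succ_iff_lt_or_eq.mp h2 with h | h
          · exact ⟨h1, h⟩
          · exact absurd (h ▸ h1) hs
        · rintro ⟨h1, h2⟩
          exact ⟨h1, Nat.lt_succ_of_lt h2⟩
      rw [h1]
      exact (Nat.mul_le_mul_left _ cnt_succ_le).trans ih

theorem spec_pow {x : ℕ} (T : Finset ℕ) (hT : ∀ l ∈ T, Spec p Q X l x) (s : ℕ) :
    Q ^ (T.filter (· < s)).card * cnt p X s x ≤ (Q - 1) ^ (T.filter (· < s)).card * X.card := by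
  induction s with
  | zero => simp [cnt_zero]
  | succ s ih =>
    by_cases hs : s ∈ T
    · have h1 : T.filter (· < s + 1) = insert s (T.filter (· < s)) := by
        ext l
        simp only [mem_filter, mem_insert]
        constructor
        · rintro ⟨h1, h2⟩
          rcases Nat.lt_succ_iff_lt_or_eq.mp h2 with h | h
          · exact Or.inr ⟨h1, h⟩
          · exact Or.inl h
        · rintro (rfl | ⟨h1, h2⟩)
          · exact ⟨hs, Nat.lt_succ_self _⟩
          · exact ⟨h1, Nat.lt_succ_of_lt h2⟩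
      rw [h1, card_insert_of_notMem (by simp), pow_succ, pow_succ]
      have h2 := hT s hs
      unfold Spec at h2
      calc Q ^ (T.filter (· < s)).card * Q * cnt p X (s + 1) x
          = Q ^ (T.filter (· < s)).card * (Q * cnt p X (s + 1) x) := by ring
        _ ≤ Q ^ (T.filter (· < s)).card * ((Q - 1) * cnt p X s x) := Nat.mul_le_mul_left _ h2.le
        _ = (Q - 1) * (Q ^ (T.filter (· < s)).card * cnt p X s x) := by ring
        _ ≤ (Q - 1) * ((Q - 1) ^ (T.filter (· < s)).card * X.card) := Nat.mul_le_mul_left _ ih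
        _ = _ := by ring
    · have h1 : T.filter (· < s + 1) = T.filter (· < s) := by
        ext l
        simp only [mem_filter]
        constructor
        · rintro ⟨h1, h2⟩
          rcases Nat.lt_succ_iff_lt_or_eq.mp h2 with h | h
          · exact ⟨h1, h⟩
          · exact absurd (h ▸ h1) hs
        · rintro ⟨h1, h2⟩
          exact ⟨h1, Nat.lt_succ_of_lt h2⟩
      rw [h1]
      exact (Nat.mul_le_mul_left _ cnt_succ_le).trans ih

theorem exists_bound_of {P : ℕ → Prop} {n : ℕ}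
    (h : ∀ T : Finset ℕ, (∀ l ∈ T, P l) → T.card ≠ n + 1) :
    ∃ T : Finset ℕ, T.card ≤ n ∧ ∀ l, P l → l ∈ T := by
  classical
  by_cases hfin : {l | P l}.Finite
  · refine ⟨hfin.toFinset, ?_, fun l hl => by simpa using hl⟩
    by_contra hc
    push Not at hc
    obtain ⟨T, hT, hTc⟩ := exists_subset_card_eq (show n + 1 ≤ hfin.toFinset.card by omega)
    exact h T (fun l hl => by simpa using hT hl) hTc
  · exfalso
    obtain ⟨T, hT, hTc⟩ := Set.Infinite.exists_subset_card_eq hfin (n + 1)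
    exact h T (fun l hl => hT hl) hTc

theorem exists_light_bound {x D : ℕ} (hx : x ∈ X) (hD : X.card < Q ^ (D + 1)) :
    ∃ T : Finset ℕ, T.card ≤ D ∧ ∀ l, Light p Q X l x → l ∈ T := by
  refine exists_bound_of fun T hT hc => ?_
  have h1 := light_pow T hT (T.sup id + 1)
  have h2 : T.filter (· < T.sup id + 1) = T :=
    filter_true_of_mem fun l hl => Nat.lt_succ_of_le (le_sup (f := id) hl)
  rw [h2, hc] at h1
  have h3 := cnt_pos (p := p) (l := T.sup id + 1) hx
  have h4 : Q ^ (D + 1) * 1 ≤ Q ^ (D + 1) * cnt p X (T.sup id + 1) x := Nat.mul_le_mul_left _ h3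
  omega

theorem exists_spec_bound {x S : ℕ} (hx : x ∈ X) (hS : X.card * (Q - 1) ^ (S + 1) < Q ^ (S + 1)) :
    ∃ T : Finset ℕ, T.card ≤ S ∧ ∀ l, Spec p Q X l x → l ∈ T := by
  refine exists_bound_of fun T hT hc => ?_
  have h1 := spec_pow T hT (T.sup id + 1)
  have h2 : T.filter (· < T.sup id + 1) = T :=
    filter_true_of_mem fun l hl => Nat.lt_succ_of_le (le_sup (f := id) hl)
  rw [h2, hc] at h1
  have h3 := cnt_pos (p := p) (l := T.sup id + 1) hx
  have h4 : Q ^ (S + 1) * 1 ≤ Q ^ (S + 1) * cnt p X (T.sup id + 1) x := Nat.mul_le_mul_left _ h3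
  have h5 : (Q - 1) ^ (S + 1) * X.card = X.card * (Q - 1) ^ (S + 1) := mul_comm _ _
  omega

end Pool.Agent.H116SP
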