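import Mathlib
import Pool.Agent.H116SP.Defs

/-! M2: tree counting. -/

open Finset

namespace Pool.Agent.H116SP

section Tree

variable {α : Type*} [DecidableEq α] (F : Finset α) (B : ℕ) (R : ℕ → α → α → Prop)

open Classical in
/-- number of branching levels at or above `s` -/
noncomputable def brn (s : ℕ) (x : α) : ℕ :=
  ((range B).filter fun s' => s ≤ s' ∧ ∃ y ∈ F, R s' x y ∧ ¬ R (s' + 1) x y).card

theorem brn_succ_of_not (s : ℕ) (x : α) (h : ¬ ∃ y ∈ F, R s x y ∧ ¬ R (s + 1) x y) :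
    brn F B R s x = brn F B R (s + 1) x := by
  classical
  unfold brn
  congr 1
  ext s'
  simp only [mem_filter, mem_range]
  constructor
  · rintro ⟨h1, h2, h3⟩
    refine ⟨h1, ?_, h3⟩
    rcases Nat.lt_or_ge s s' with h4 | h4
    · exact h4
    · obtain rfl : s = s' := le_antisymm h2 h4
      exact absurd h3 h
  · rintro ⟨h1, h2, h3⟩
    exact ⟨h1, by omega, h3⟩

theorem brn_succ_of (s : ℕ) (x : α) (hs : s < B) (h : ∃ y ∈ F, R s x y ∧ ¬ R (s + 1) x y) :
    brn F B R s x = brn F B R (s + 1) x + 1 := by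
  classical
  unfold brn
  have : ((range B).filter fun s' => s ≤ s' ∧ ∃ y ∈ F, R s' x y ∧ ¬ R (s' + 1) x y) =
      insert s ((range B).filter fun s' => s + 1 ≤ s' ∧
        ∃ y ∈ F, R s' x y ∧ ¬ R (s' + 1) x y) := by
    ext s'
    simp only [mem_filter, mem_range, mem_insert]
    constructor
    · rintro ⟨h1, h2, h3⟩
      rcases Nat.lt_or_ge s s' with h4 | h4
      · exact Or.inr ⟨h1, h4, h3⟩
      · exact Or.inl (le_antisymm h4 h2)
    · rintro (rfl | ⟨h1, h2, h3⟩)
      · exact ⟨hs, le_rfl, h⟩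
      · exact ⟨h1, by omega, h3⟩
  rw [this, card_insert_of_notMem]
  simp only [mem_filter, not_and]
  intro _ h2
  omega

theorem tree_sum
    (hrefl : ∀ s x, R s x x) (hsymm : ∀ s x y, R s x y → R s y x)
    (htrans : ∀ s x y z, R s x y → R s y z → R s x z)
    (hmono : ∀ s x y, R (s + 1) x y → R s x y)
    (hB : ∀ x ∈ F, ∀ y ∈ F, R B x y → x = y)
    (h2 : ∀ s, ∀ x ∈ F, ∀ y ∈ F, ∀ z ∈ F, R s x y → R s x z →
      R (s + 1) x y ∨ R (s + 1) x z ∨ R (s + 1) y z) [∀ s x, DecidablePred (R s x)] (j : ℕ) :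
    ∀ s, s + j = B → ∀ x ∈ F, ∑ y ∈ F.filter (R s x), (1 / 2 : ℚ) ^ brn F B R s y ≤ 1 := by
  induction j with
  | zero =>
    intro s hs x hx
    have hsB : s = B := by omega
    subst hsB
    have h1 : F.filter (R s x) = {x} := by
      ext y
      simp only [mem_filter, mem_singleton]
      constructor
      · rintro ⟨h1, h2⟩
        exact (hB x hx y h1 h2).symm
      · rintro rfl
        exact ⟨hx, hrefl _ _⟩
    rw [h1, sum_singleton]
    exact pow_le_one₀ (by norm_num) (by norm_num)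
  | succ j ih =>
    intro s hs x hx
    have hsB : s < B := by omega
    by_cases hbr : ∃ y ∈ F, R s x y ∧ ¬ R (s + 1) x y
    · obtain ⟨w, hw, hxw, hxw'⟩ := hbr
      have hdec : F.filter (R s x) = F.filter (R (s + 1) x) ∪ F.filter (R (s + 1) w) := by
        ext z
        simp only [mem_filter, mem_union]
        constructor
        · rintro ⟨hz, hxz⟩
          rcases h2 s x hx w hw z hz hxw hxz with h | h | h
          · exact absurd h hxw'
          · exact Or.inl ⟨hz, h⟩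
          · exact Or.inr ⟨hz, h⟩
        · rintro (⟨hz, h⟩ | ⟨hz, h⟩)
          · exact ⟨hz, hmono _ _ _ h⟩
          · exact ⟨hz, htrans _ _ _ _ hxw (hmono _ _ _ h)⟩
      have hdisj : Disjoint (F.filter (R (s + 1) x)) (F.filter (R (s + 1) w)) := by
        rw [disjoint_left]
        intro z hz hz'
        rw [mem_filter] at hz hz'
        exact hxw' (htrans _ _ _ _ hz.2 (hsymm _ _ _ hz'.2))
      rw [hdec, sum_union hdisj]
      have e1 : ∀ y ∈ F.filter (R (s + 1) x), (1 / 2 : ℚ) ^ brn F B R s y =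
          1 / 2 * (1 / 2 : ℚ) ^ brn F B R (s + 1) y := by
        intro y hy
        rw [mem_filter] at hy
        rw [brn_succ_of F B R s y hsB ⟨w, hw, htrans _ _ _ _ (hmono _ _ _ (hsymm _ _ _ hy.2)) hxw,
          fun h => hxw' (htrans _ _ _ _ hy.2 h)⟩, pow_succ, mul_comm]
      have e2 : ∀ y ∈ F.filter (R (s + 1) w), (1 / 2 : ℚ) ^ brn F B R s y =
          1 / 2 * (1 / 2 : ℚ) ^ brn F B R (s + 1) y := by
        intro y hy
        rw [mem_filter] at hy
        rw [brn_succ_of F B R s y hsB ⟨x, hx, htrans _ _ _ _ (hmono _ _ _ (hsymm _ _ _ hy.2))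
          (hsymm _ _ _ hxw), fun h => hxw' (hsymm _ _ _ (htrans _ _ _ _ hy.2 h))⟩, pow_succ,
          mul_comm]
      rw [sum_congr rfl e1, sum_congr rfl e2, ← mul_sum, ← mul_sum]
      have i1 := ih (s + 1) (by omega) x hx
      have i2 := ih (s + 1) (by omega) w hw
      linarith
    · have hall : ∀ y ∈ F, R s x y → R (s + 1) x y := by
        intro y hy h
        by_contra h'
        exact hbr ⟨y, hy, h, h'⟩
      have hdec : F.filter (R s x) = F.filter (R (s + 1) x) := by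
        ext z
        simp only [mem_filter]
        exact ⟨fun h => ⟨h.1, hall z h.1 h.2⟩, fun h => ⟨h.1, hmono _ _ _ h.2⟩⟩
      rw [hdec]
      have e1 : ∀ y ∈ F.filter (R (s + 1) x), (1 / 2 : ℚ) ^ brn F B R s y =
          (1 / 2 : ℚ) ^ brn F B R (s + 1) y := by
        intro y hy
        rw [mem_filter] at hy
        rw [brn_succ_of_not F B R s y]
        rintro ⟨z, hz, h1, h3⟩
        exact h3 (htrans _ _ _ _ (hsymm _ _ _ hy.2)
          (hall z hz (htrans _ _ _ _ (hmono _ _ _ hy.2) h1)))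
      rw [sum_congr rfl e1]
      exact ih (s + 1) (by omega) x hx

end Tree

/-- (M2) tree counting -/
theorem tree_count {α : Type*} [DecidableEq α] (F : Finset α) (B d : ℕ) (R : ℕ → α → α → Prop)
    (hrefl : ∀ s x, R s x x) (hsymm : ∀ s x y, R s x y → R s y x)
    (htrans : ∀ s x y z, R s x y → R s y z → R s x z)
    (hmono : ∀ s x y, R (s + 1) x y → R s x y)
    (h0 : ∀ x ∈ F, ∀ y ∈ F, R 0 x y)
    (hB : ∀ x ∈ F, ∀ y ∈ F, R B x y → x = y)
    (h2 : ∀ s, ∀ x ∈ F, ∀ y ∈ F, ∀ z ∈ F, R s x y → R s x z →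
      R (s + 1) x y ∨ R (s + 1) x z ∨ R (s + 1) y z)
    (hd : ∀ x ∈ F, ∃ T : Finset ℕ, T.card ≤ d ∧
      ∀ s, (∃ y ∈ F, R s x y ∧ ¬ R (s + 1) x y) → s ∈ T) :
    F.card ≤ 2 ^ d := by
  classical
  rcases F.eq_empty_or_nonempty with rfl | ⟨x, hx⟩
  · simp
  have h := tree_sum F B R hrefl hsymm htrans hmono hB h2 B 0 (by omega) x hx
  have hF : F.filter (R 0 x) = F := by
    ext y
    simp only [mem_filter, and_iff_left_iff_imp]
    exact fun hy => h0 x hx y hy
  rw [hF] at h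
  have h3 : ∀ y ∈ F, (1 / 2 : ℚ) ^ d ≤ (1 / 2 : ℚ) ^ brn F B R 0 y := by
    intro y hy
    refine pow_le_pow_of_le_one (by norm_num) (by norm_num) ?_
    obtain ⟨T, hT, hT'⟩ := hd y hy
    refine le_trans (card_le_card ?_) hT
    intro s hs
    rw [mem_filter] at hs
    exact hT' s hs.2.2
  have h4 : (F.card : ℚ) * (1 / 2 : ℚ) ^ d ≤ 1 := by
    calc (F.card : ℚ) * (1 / 2 : ℚ) ^ d = ∑ y ∈ F, (1 / 2 : ℚ) ^ d := by
          rw [sum_const, nsmul_eq_mul]
      _ ≤ _ := (sum_le_sum h3).trans h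
  have h5 : (F.card : ℚ) ≤ 2 ^ d := by
    have h6 : (0 : ℚ) < 2 ^ d := by positivity
    rw [one_div, inv_pow, ← div_eq_mul_inv, div_le_one h6] at h4
    exact h4
  exact_mod_cast h5

end Pool.Agent.H116SP
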