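import Mathlib
import Pool.Agent.H116SP.Defs
import Pool.Agent.H116SP.M1
import Pool.Agent.H116SP.M2

/-! M3, M4: decoding. -/

open Finset

namespace Pool.Agent.H116SP


theorem mul_modEq_iff {p u s x y : ℕ} (hp : p.Prime) (hu : u ≠ 0) (hs : u.factorization p ≤ s) :
    u * x ≡ u * y [MOD p ^ s] ↔ x ≡ y [MOD p ^ (s - u.factorization p)] := by
  obtain ⟨u0, hu0, hcop⟩ : ∃ u0, u = p ^ u.factorization p * u0 ∧ Nat.Coprime p u0 :=
    ⟨u / p ^ u.factorization p, (Nat.ordProj_mul_ordCompl_eq_self u p).symm,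
      Nat.coprime_ordCompl hp hu⟩
  set j := u.factorization p with hj
  have hps : p ^ s = p ^ j * p ^ (s - j) := by rw [← pow_add]; congr 1; omega
  rw [hps]
  have e1 : u * x = p ^ j * (u0 * x) := by rw [hu0]; ring
  have e2 : u * y = p ^ j * (u0 * y) := by rw [hu0]; ring
  rw [e1, e2]
  have hpj : 0 < p ^ j := pow_pos hp.pos _
  constructor
  · intro h
    have h1 := Nat.ModEq.mul_left_cancel' hpj.ne' h
    exact Nat.ModEq.cancel_left_of_coprime (Nat.Coprime.pow_left _ hcop) h1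
  · intro h
    exact Nat.ModEq.mul_left' _ (Nat.ModEq.mul_left _ h)

theorem mul_modEq_of_le {p u s x y : ℕ} (hs : s ≤ u.factorization p) :
    u * x ≡ u * y [MOD p ^ s] := by
  have h1 : p ^ s ∣ u := (pow_dvd_pow p hs).trans (Nat.ordProj_dvd u p)
  have h2 : u * x ≡ 0 [MOD p ^ s] := (Nat.modEq_zero_iff_dvd).mpr (h1.mul_right x)
  have h3 : u * y ≡ 0 [MOD p ^ s] := (Nat.modEq_zero_iff_dvd).mpr (h1.mul_right y)
  exact h2.trans h3.symm

theorem add_eq_modEq {n a b a' b' σ : ℕ} (h : a + b = σ) (h' : a' + b' = σ)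
    (hab : a ≡ a' [MOD n]) : b ≡ b' [MOD n] := by
  have h1 : a + b ≡ a' + b' [MOD n] := by rw [h, h']
  exact Nat.ModEq.add_left_cancel hab h1

/-- M3 -/
theorem decode {p Q D : ℕ} (hp : p.Prime) (hQ : 3 ≤ Q) (W : Finset ℕ) (hD : W.card < Q ^ (D + 1))
    (u u' σ : ℕ) (hu : u ≠ 0) (hu' : u' ≠ 0) (F : Finset (ℕ × ℕ))
    (hF : ∀ x ∈ F, x.1 ∈ W ∧ x.2 ∈ W ∧ u * x.1 + u' * x.2 = σ ∧
      ∀ s, u.factorization p ≤ s → u'.factorization p ≤ s →
        ¬ (Spec p Q W (s - u.factorization p) x.1 ∧ Spec p Q W (s - u'.factorization p) x.2)) :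
    F.card ≤ 2 ^ (2 * D) := by
  classical
  set j := u.factorization p with hj
  set k := u'.factorization p with hk
  let R : ℕ → ℕ × ℕ → ℕ × ℕ → Prop := fun s x y => u * x.1 ≡ u * y.1 [MOD p ^ s]
  -- basic facts about branching
  have hbr : ∀ s, ∀ x ∈ F, ∀ y ∈ F, R s x y → ¬ R (s + 1) x y →
      j ≤ s ∧ k ≤ s ∧ y.1 ≡ x.1 [MOD p ^ (s - j)] ∧ ¬ y.1 ≡ x.1 [MOD p ^ (s - j + 1)] ∧
      y.2 ≡ x.2 [MOD p ^ (s - k)] ∧ ¬ y.2 ≡ x.2 [MOD p ^ (s - k + 1)] := by
    intro s x hx y hy h hn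
    obtain ⟨-, -, hx3, -⟩ := hF x hx
    obtain ⟨-, -, hy3, -⟩ := hF y hy
    have hR2 : ∀ s, R s x y ↔ u' * x.2 ≡ u' * y.2 [MOD p ^ s] := by
      intro s
      constructor
      · intro h; exact add_eq_modEq hx3 hy3 h
      · intro h
        exact add_eq_modEq (σ := σ) (a := u' * x.2) (a' := u' * y.2)
          (by rw [add_comm]; exact hx3) (by rw [add_comm]; exact hy3) h
    have hjs : j ≤ s := by
      by_contra hc
      exact hn (mul_modEq_of_le (by omega))
    have hks : k ≤ s := by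
      by_contra hc
      exact hn ((hR2 (s + 1)).mpr (mul_modEq_of_le (by omega)))
    have h2 := (hR2 s).mp h
    have hn2 := fun h' => hn ((hR2 (s + 1)).mpr h')
    refine ⟨hjs, hks, ((mul_modEq_iff hp hu hjs).mp h).symm, ?_,
      ((mul_modEq_iff hp hu' hks).mp h2).symm, ?_⟩
    · intro h'
      apply hn
      refine (mul_modEq_iff hp hu (by omega)).mpr ?_
      have : s + 1 - j = s - j + 1 := by omega
      rw [← hj, this]
      exact h'.symm
    · intro h'
      apply hn2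
      refine (mul_modEq_iff hp hu' (by omega)).mpr ?_
      have : s + 1 - k = s - k + 1 := by omega
      rw [← hk, this]
      exact h'.symm
  refine tree_count F (σ + 1) (2 * D) R (fun s x => Nat.ModEq.refl _) (fun s x y h => h.symm)
    (fun s x y z h1 h2 => h1.trans h2) (fun s x y h => modEq_succ h) ?_ ?_ ?_ ?_
  · intro x _ y _
    show u * x.1 ≡ u * y.1 [MOD p ^ 0]
    rw [pow_zero]; exact Nat.modEq_one
  · intro x hx y hy h
    obtain ⟨-, -, hx3, -⟩ := hF x hx
    obtain ⟨-, -, hy3, -⟩ := hF y hy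
    have hlt : σ < p ^ (σ + 1) :=
      calc σ < σ + 1 := Nat.lt_succ_self _
        _ < p ^ (σ + 1) := Nat.lt_pow_self hp.one_lt
    have h1 : u * x.1 = u * y.1 := Nat.ModEq.eq_of_lt_of_lt h (by omega) (by omega)
    have h2 : u' * x.2 = u' * y.2 := by omega
    exact Prod.ext (Nat.eq_of_mul_eq_mul_left (Nat.pos_of_ne_zero hu) h1)
      (Nat.eq_of_mul_eq_mul_left (Nat.pos_of_ne_zero hu') h2)
  · intro s x hx y hy z hz hxy hxz
    by_contra hcon
    push Not at hcon
    obtain ⟨h1, h2, h3⟩ := hcon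
    have hyz : R s y z := (show R s y x from hxy.symm).trans hxz
    obtain ⟨hjs, hks, a1, a2, a3, a4⟩ := hbr s x hx y hy hxy h1
    obtain ⟨-, -, b1, b2, b3, b4⟩ := hbr s x hx z hz hxz h2
    obtain ⟨-, -, c1, c2, c3, c4⟩ := hbr s y hy z hz hyz h3
    obtain ⟨x1, x2, -, x4⟩ := hF x hx
    obtain ⟨y1, y2, -, y4⟩ := hF y hy
    obtain ⟨z1, z2, -, z4⟩ := hF z hz
    have hx4 := x4 s hjs hks
    have hy4 := y4 s hjs hks
    have hz4 := z4 s hjs hks
    -- the same type for two of the three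
    have B1 : ¬ (¬ Spec p Q W (s - j) x.1 ∧ ¬ Spec p Q W (s - j) y.1) := fun h =>
      a2 (modEq_of_not_spec hQ x1 a1 h.1 h.2)
    have B2 : ¬ (¬ Spec p Q W (s - j) x.1 ∧ ¬ Spec p Q W (s - j) z.1) := fun h =>
      b2 (modEq_of_not_spec hQ x1 b1 h.1 h.2)
    have B3 : ¬ (¬ Spec p Q W (s - j) y.1 ∧ ¬ Spec p Q W (s - j) z.1) := fun h =>
      c2 (modEq_of_not_spec hQ y1 c1 h.1 h.2)
    have B1' : ¬ (¬ Spec p Q W (s - k) x.2 ∧ ¬ Spec p Q W (s - k) y.2) := fun h =>
      a4 (modEq_of_not_spec hQ x2 a3 h.1 h.2)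
    have B2' : ¬ (¬ Spec p Q W (s - k) x.2 ∧ ¬ Spec p Q W (s - k) z.2) := fun h =>
      b4 (modEq_of_not_spec hQ x2 b3 h.1 h.2)
    have B3' : ¬ (¬ Spec p Q W (s - k) y.2 ∧ ¬ Spec p Q W (s - k) z.2) := fun h =>
      c4 (modEq_of_not_spec hQ y2 c3 h.1 h.2)
    by_cases ha : Spec p Q W (s - j) x.1
    · have hx2 : ¬ Spec p Q W (s - k) x.2 := fun h => hx4 ⟨ha, h⟩
      by_cases hb : Spec p Q W (s - j) y.1
      · exact B1' ⟨hx2, fun h => hy4 ⟨hb, h⟩⟩
      · by_cases hc : Spec p Q W (s - j) z.1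
        · exact B2' ⟨hx2, fun h => hz4 ⟨hc, h⟩⟩
        · exact B3 ⟨hb, hc⟩
    · by_cases hb : Spec p Q W (s - j) y.1
      · by_cases hc : Spec p Q W (s - j) z.1
        · exact B3' ⟨fun h => hy4 ⟨hb, h⟩, fun h => hz4 ⟨hc, h⟩⟩
        · exact B2 ⟨ha, hc⟩
      · exact B1 ⟨ha, hb⟩
  · intro x hx
    obtain ⟨x1, x2, -, -⟩ := hF x hx
    obtain ⟨T1, hT1, hT1'⟩ := exists_light_bound (p := p) (Q := Q) x1 hD
    obtain ⟨T2, hT2, hT2'⟩ := exists_light_bound (p := p) (Q := Q) x2 hD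
    refine ⟨T1.image (· + j) ∪ T2.image (· + k), ?_, ?_⟩
    · refine (card_union_le _ _).trans ?_
      have e1 := card_image_le (s := T1) (f := (· + j))
      have e2 := card_image_le (s := T2) (f := (· + k))
      omega
    · rintro s ⟨y, hy, h, hn⟩
      obtain ⟨hjs, hks, a1, a2, a3, a4⟩ := hbr s x hx y hy h hn
      obtain ⟨y1, y2, -, y4⟩ := hF y hy
      have hy4 := y4 s hjs hks
      rw [mem_union, mem_image, mem_image]
      by_cases hsp : Spec p Q W (s - j) y.1
      · right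
        have hsp' : ¬ Spec p Q W (s - k) y.2 := fun h => hy4 ⟨hsp, h⟩
        exact ⟨s - k, hT2' _ (light_of_not_spec (by omega) a3.symm (fun h => a4 h.symm) hsp'),
          by omega⟩
      · left
        exact ⟨s - j, hT1' _ (light_of_not_spec (by omega) a1.symm (fun h => a2 h.symm) hsp),
          by omega⟩

/-- M4: the possible valuations of the second summand. -/
theorem phase1 {p Q D : ℕ} (hp : p.Prime) (hQ : 3 ≤ Q) (A : Finset ℕ) (hD : A.card < Q ^ (D + 1))
    (σ : ℕ) (G : Finset (ℕ × ℕ))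
    (hG : ∀ x ∈ G, x.1 ∈ A ∧ x.1 ≠ 0 ∧ x.2 ≠ 0 ∧ x.1 + x.2 = σ ∧
      x.1.factorization p < x.2.factorization p ∧ ¬ Spec p Q A (x.2.factorization p) x.1) :
    (G.image fun x => (x.1.factorization p, x.2.factorization p)).card ≤ D + 1 := by
  classical
  rcases G.eq_empty_or_nonempty with rfl | hne
  · simp
  -- the first valuation is constant
  have hval : ∀ x ∈ G, x.1.factorization p = σ.factorization p := by
    intro x hx
    obtain ⟨-, h1, h2, h3, h4, -⟩ := hG x hx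
    have hσ : σ ≠ 0 := by omega
    have hd1 : p ^ x.1.factorization p ∣ σ := by
      rw [← h3]
      exact dvd_add (Nat.ordProj_dvd _ _) ((pow_dvd_pow p h4.le).trans (Nat.ordProj_dvd _ _))
    have hd2 : ¬ p ^ (x.1.factorization p + 1) ∣ σ := by
      intro h
      rw [← h3] at h
      have h5 : p ^ (x.1.factorization p + 1) ∣ x.2 :=
        (pow_dvd_pow p h4).trans (Nat.ordProj_dvd _ _)
      have h6 := (Nat.dvd_add_left h5).mp h
      exact Nat.pow_succ_factorization_not_dvd h1 hp h6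
    have e1 : x.1.factorization p ≤ σ.factorization p :=
      (hp.pow_dvd_iff_le_factorization hσ).mp hd1
    have e2 : ¬ x.1.factorization p + 1 ≤ σ.factorization p := fun h =>
      hd2 ((hp.pow_dvd_iff_le_factorization hσ).mpr h)
    omega
  obtain ⟨x0, hx0, hmax⟩ := exists_max_image G (fun x => x.2.factorization p) hne
  obtain ⟨h01, h02, h03, h04, h05, -⟩ := hG x0 hx0
  obtain ⟨T, hT, hT'⟩ := exists_light_bound (p := p) (Q := Q) h01 hD
  have hsub : (G.image fun x => (x.1.factorization p, x.2.factorization p)) ⊆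
      (insert (x0.2.factorization p) T).image fun t => (σ.factorization p, t) := by
    intro y hy
    obtain ⟨x, hx, rfl⟩ := mem_image.mp hy
    rw [hval x hx, mem_image]
    refine ⟨x.2.factorization p, ?_, rfl⟩
    rw [mem_insert]
    by_cases heq : x.2.factorization p = x0.2.factorization p
    · exact Or.inl heq
    right
    have hlt : x.2.factorization p < x0.2.factorization p :=
      lt_of_le_of_ne (hmax x hx) heq
    obtain ⟨h1, h2, h3, h4, h5, h6⟩ := hG x hx
    apply hT'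
    refine light_of_not_spec (by omega) (x := x.1) ?_ ?_ h6
    · -- both are congruent to `σ`
      have e1 : x0.2 ≡ x.2 [MOD p ^ x.2.factorization p] := by
        have a1 : x0.2 ≡ 0 [MOD p ^ x.2.factorization p] :=
          (Nat.modEq_zero_iff_dvd).mpr ((pow_dvd_pow p hlt.le).trans (Nat.ordProj_dvd _ _))
        have a2 : x.2 ≡ 0 [MOD p ^ x.2.factorization p] :=
          (Nat.modEq_zero_iff_dvd).mpr (Nat.ordProj_dvd _ _)
        exact a1.trans a2.symm
      exact add_eq_modEq (σ := σ) (by rw [add_comm]; exact h04) (by rw [add_comm]; exact h4) e1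
    · intro h
      have e1 : x0.2 ≡ x.2 [MOD p ^ (x.2.factorization p + 1)] :=
        add_eq_modEq (σ := σ) h04 h4 h
      have a1 : x0.2 ≡ 0 [MOD p ^ (x.2.factorization p + 1)] :=
        (Nat.modEq_zero_iff_dvd).mpr ((pow_dvd_pow p hlt).trans (Nat.ordProj_dvd _ _))
      have a2 : p ^ (x.2.factorization p + 1) ∣ x.2 :=
        (Nat.modEq_zero_iff_dvd).mp (e1.symm.trans a1)
      exact Nat.pow_succ_factorization_not_dvd h3 hp a2
  refine (card_le_card hsub).trans (card_image_le.trans ((card_insert_le _ _).trans ?_))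
  omega

end Pool.Agent.H116SP
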