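import Mathlib
import Pool.Agent.H116SP.Defs
import Pool.Agent.H116SP.M1
import Pool.Agent.H116SP.M3

/-! M5: spread sets have many sums. -/

open Finset

namespace Pool.Agent.H116SP

theorem factorization_part {J : Finset ℕ} (hJ : ∀ p ∈ J, p.Prime) (a q : ℕ) :
    (part J a).factorization q = if q ∈ J then a.factorization q else 0 := by
  unfold part
  rw [Nat.factorization_prod fun p hp => pow_ne_zero _ (hJ p hp).ne_zero]
  rw [Finsupp.finsetSum_apply]
  have h1 : ∀ p ∈ J, (p ^ a.factorization p).factorization q =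
      if p = q then a.factorization q else 0 := by
    intro p hp
    rw [(hJ p hp).factorization_pow, Finsupp.single_apply]
    split_ifs with h
    · rw [h]
    · rfl
  rw [sum_congr rfl h1, sum_ite_eq']

theorem part_ne_zero {J : Finset ℕ} (hJ : ∀ p ∈ J, p.Prime) (a : ℕ) : part J a ≠ 0 :=
  prod_ne_zero_iff.mpr fun p hp => pow_ne_zero _ (hJ p hp).ne_zero

theorem part_dvd {J : Finset ℕ} (hJ : ∀ p ∈ J, p.Prime) {a : ℕ} (ha : a ≠ 0) : part J a ∣ a := by
  rw [← Nat.factorization_le_iff_dvd (part_ne_zero hJ a) ha]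
  intro q
  rw [factorization_part hJ]
  split_ifs
  · exact le_rfl
  · exact Nat.zero_le _

theorem part_mul_free {J : Finset ℕ} (hJ : ∀ p ∈ J, p.Prime) {a : ℕ} (ha : a ≠ 0) :
    part J a * free J a = a := Nat.mul_div_cancel' (part_dvd hJ ha)

theorem spread_count (A J : Finset ℕ) (L p : ℕ)
    (hspread : ∀ a ∈ A, ∀ s,
      L * (A.filter fun a' => free J a' = free J a ∧ a'.factorization p = s).card ≤
        (A.filter fun a' => free J a' = free J a).card)
    (V : ℕ → Finset ℕ) (c : ℕ) (hV : ∀ w, (V w).card ≤ c) :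
    L * (A.filter fun a => a.factorization p ∈ V (free J a)).card ≤ c * A.card := by
  classical
  rw [card_eq_sum_card_fiberwise (f := free J) (t := A.image (free J))
    (fun x hx => mem_image_of_mem _ (mem_filter.mp hx).1)]
  rw [card_eq_sum_card_fiberwise (s := A) (f := free J) (t := A.image (free J))
    (fun x hx => mem_image_of_mem _ hx)]
  rw [mul_sum, mul_sum]
  refine sum_le_sum fun w hw => ?_
  obtain ⟨a, ha, rfl⟩ := mem_image.mp hw
  have h1 : ((A.filter fun a' => a'.factorization p ∈ V (free J a')).filter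
      fun a' => free J a' = free J a) ⊆ (V (free J a)).biUnion fun s =>
        A.filter fun a' => free J a' = free J a ∧ a'.factorization p = s := by
    intro x hx
    simp only [mem_filter] at hx
    rw [mem_biUnion]
    refine ⟨x.factorization p, by rw [← hx.2]; exact hx.1.2, ?_⟩
    rw [mem_filter]
    exact ⟨hx.1.1, hx.2, rfl⟩
  calc L * _ ≤ L * ∑ s ∈ V (free J a),
        (A.filter fun a' => free J a' = free J a ∧ a'.factorization p = s).card :=
        Nat.mul_le_mul_left _ ((card_le_card h1).trans card_biUnion_le)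
    _ = ∑ s ∈ V (free J a),
        L * (A.filter fun a' => free J a' = free J a ∧ a'.factorization p = s).card := mul_sum _ _ _
    _ ≤ ∑ s ∈ V (free J a), (A.filter fun a' => free J a' = free J a).card :=
        sum_le_sum fun s _ => hspread a ha s
    _ = (V (free J a)).card * (A.filter fun a' => free J a' = free J a).card := by
        rw [sum_const, smul_eq_mul]
    _ ≤ _ := Nat.mul_le_mul_right _ (hV _)

open Classical in
theorem prod_count (A : Finset ℕ) (P : ℕ → ℕ → Prop) (c L : ℕ)
    (h : ∀ b ∈ A, L * (A.filter fun a => P a b).card ≤ c * A.card) :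
    L * ((A ×ˢ A).filter fun x => P x.1 x.2).card ≤ c * A.card ^ 2 := by
  rw [card_filter, sum_product_right]
  have h1 : ∀ b ∈ A, (∑ a ∈ A, if P a b then 1 else 0) = (A.filter fun a => P a b).card :=
    fun b _ => (card_filter _ _).symm
  rw [sum_congr rfl h1, mul_sum]
  refine (sum_le_sum fun b hb => h b hb).trans ?_
  rw [sum_const, smul_eq_mul]
  exact le_of_eq (by ring)

open Classical in
theorem prod_count' (A : Finset ℕ) (P : ℕ → ℕ → Prop) (c L : ℕ)
    (h : ∀ a ∈ A, L * (A.filter fun b => P a b).card ≤ c * A.card) :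
    L * ((A ×ˢ A).filter fun x => P x.1 x.2).card ≤ c * A.card ^ 2 := by
  rw [card_filter, sum_product]
  have h1 : ∀ a ∈ A, (∑ b ∈ A, if P a b then 1 else 0) = (A.filter fun b => P a b).card :=
    fun b _ => (card_filter _ _).symm
  rw [sum_congr rfl h1, mul_sum]
  refine (sum_le_sum fun b hb => h b hb).trans ?_
  rw [sum_const, smul_eq_mul]
  exact le_of_eq (by ring)

/-- Good pairs. -/
def Good (A J : Finset ℕ) (Q p0 : ℕ) (x : ℕ × ℕ) : Prop :=
  (∀ p ∈ J, x.1.factorization p ≠ x.2.factorization p ∧
    ¬ Spec p Q A (x.2.factorization p) x.1 ∧ ¬ Spec p Q A (x.1.factorization p) x.2) ∧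
  ∀ s, x.1.factorization p0 ≤ s → x.2.factorization p0 ≤ s →
    ¬ (Spec p0 Q (A.image (free J)) (s - x.1.factorization p0) (free J x.1) ∧
      Spec p0 Q (A.image (free J)) (s - x.2.factorization p0) (free J x.2))

open Classical in
theorem good_fibre {A J : Finset ℕ} (hA : 0 ∉ A) (hJ : ∀ p ∈ J, p.Prime) {p0 : ℕ} (hp0 : p0 ∈ J)
    {Q D : ℕ} (hQ : 3 ≤ Q) (hD : A.card < Q ^ (D + 1)) (σ : ℕ) :
    ((((A ×ˢ A).filter (Good A J Q p0)).filter fun x => x.1 + x.2 = σ)).card ≤
      (2 * (D + 1)) ^ J.card * 2 ^ (2 * D) := by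
  set G := (((A ×ˢ A).filter (Good A J Q p0)).filter fun x => x.1 + x.2 = σ) with hGdef
  have hG : ∀ x ∈ G, x.1 ∈ A ∧ x.2 ∈ A ∧ x.1 ≠ 0 ∧ x.2 ≠ 0 ∧ x.1 + x.2 = σ ∧ Good A J Q p0 x := by
    intro x hx
    rw [hGdef, mem_filter, mem_filter, mem_product] at hx
    exact ⟨hx.1.1.1, hx.1.1.2, fun h => hA (h ▸ hx.1.1.1), fun h => hA (h ▸ hx.1.1.2), hx.2, hx.1.2⟩
  clear_value G
  clear hGdef
  let Φ : ℕ × ℕ → (J → ℕ × ℕ) := fun x p => (x.1.factorization p, x.2.factorization p)
  -- image
  have him : (G.image Φ).card ≤ (2 * (D + 1)) ^ J.card := by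
    have h1 : G.image Φ ⊆ Fintype.piFinset fun p : J =>
        G.image fun x => (x.1.factorization p, x.2.factorization p) := by
      intro f hf
      obtain ⟨x, hx, rfl⟩ := mem_image.mp hf
      rw [Fintype.mem_piFinset]
      intro p
      exact mem_image_of_mem _ hx
    refine (card_le_card h1).trans ?_
    rw [Fintype.card_piFinset]
    refine (prod_le_pow_card _ _ (2 * (D + 1)) ?_).trans ?_
    · rintro ⟨p, hp⟩ -
      have hsplit : G = (G.filter fun x => x.1.factorization p < x.2.factorization p) ∪
          (G.filter fun x => x.2.factorization p < x.1.factorization p) := by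
        ext x
        rw [mem_union, mem_filter, mem_filter]
        constructor
        · intro hx
          rcases lt_or_gt_of_ne ((hG x hx).2.2.2.2.2.1 p hp).1 with h | h
          · exact Or.inl ⟨hx, h⟩
          · exact Or.inr ⟨hx, h⟩
        · rintro (h | h)
          · exact h.1
          · exact h.1
      have e1 := phase1 (hJ p hp) hQ A hD σ
        (G.filter fun x => x.1.factorization p < x.2.factorization p) (by
          intro x hx
          rw [mem_filter] at hx
          obtain ⟨h1, h2, h3, h4, h5, h6⟩ := hG x hx.1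
          exact ⟨h1, h3, h4, h5, hx.2, (h6.1 p hp).2.1⟩)
      have e2 := phase1 (hJ p hp) hQ A hD σ
        ((G.filter fun x => x.2.factorization p < x.1.factorization p).image Prod.swap) (by
          intro x hx
          obtain ⟨y, hy, rfl⟩ := mem_image.mp hx
          rw [mem_filter] at hy
          obtain ⟨h1, h2, h3, h4, h5, h6⟩ := hG y hy.1
          exact ⟨h2, h4, h3, by rw [← h5]; exact add_comm _ _, hy.2, (h6.1 p hp).2.2⟩)
      show (G.image fun x => (x.1.factorization p, x.2.factorization p)).card ≤ _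
      rw [hsplit, image_union]
      refine (card_union_le _ _).trans ?_
      have e3 : ((G.filter fun x => x.2.factorization p < x.1.factorization p).image
          fun x => (x.1.factorization p, x.2.factorization p)).card ≤ D + 1 := by
        rw [image_image] at e2
        have e4 : ((G.filter fun x => x.2.factorization p < x.1.factorization p).image
          fun x => (x.1.factorization p, x.2.factorization p)) =
          (((G.filter fun x => x.2.factorization p < x.1.factorization p).image
            ((fun x : ℕ × ℕ => (x.1.factorization p, x.2.factorization p)) ∘ Prod.swap)).image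
              Prod.swap) := by
          rw [image_image]
          rfl
        rw [e4]
        exact card_image_le.trans e2
      omega
    · rw [card_univ, Fintype.card_coe]
  have hfib : ∀ f ∈ G.image Φ, (G.filter fun x => Φ x = f).card ≤ 2 ^ (2 * D) := by
    intro f hf
    obtain ⟨x0, hx0, rfl⟩ := mem_image.mp hf
    have hpart1 : ∀ x ∈ G.filter fun x => Φ x = Φ x0, part J x.1 = part J x0.1 ∧
        part J x.2 = part J x0.2 := by
      intro x hx
      have h1 := (mem_filter.mp hx).2
      have h2 : ∀ p ∈ J, x.1.factorization p = x0.1.factorization p ∧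
          x.2.factorization p = x0.2.factorization p := by
        intro p hp
        have := congrFun h1 ⟨p, hp⟩
        simp only [Φ, Prod.mk.injEq] at this
        exact this
      unfold part
      exact ⟨prod_congr rfl fun p hp => by rw [(h2 p hp).1],
        prod_congr rfl fun p hp => by rw [(h2 p hp).2]⟩
    have hinj : Set.InjOn (fun x : ℕ × ℕ => (free J x.1, free J x.2))
        (G.filter fun x => Φ x = Φ x0) := by
      intro x hx y hy hxy
      simp only [Prod.mk.injEq] at hxy
      obtain ⟨a1, a2⟩ := hpart1 x hx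
      obtain ⟨b1, b2⟩ := hpart1 y hy
      obtain ⟨-, -, h3, h4, -, -⟩ := hG x (mem_filter.mp hx).1
      obtain ⟨-, -, h3', h4', -, -⟩ := hG y (mem_filter.mp hy).1
      refine Prod.ext ?_ ?_
      · rw [← part_mul_free hJ h3, ← part_mul_free hJ h3', a1, b1, hxy.1]
      · rw [← part_mul_free hJ h4, ← part_mul_free hJ h4', a2, b2, hxy.2]
    rw [← card_image_of_injOn hinj]
    have hv1 : (part J x0.1).factorization p0 = x0.1.factorization p0 := by
      rw [factorization_part hJ, if_pos hp0]
    have hv2 : (part J x0.2).factorization p0 = x0.2.factorization p0 := by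
      rw [factorization_part hJ, if_pos hp0]
    refine decode (hJ p0 hp0) hQ (A.image (free J)) (lt_of_le_of_lt card_image_le hD)
      (part J x0.1) (part J x0.2) σ (part_ne_zero hJ _) (part_ne_zero hJ _) _ ?_
    intro y hy
    obtain ⟨x, hx, rfl⟩ := mem_image.mp hy
    obtain ⟨a1, a2⟩ := hpart1 x hx
    obtain ⟨h1, h2, h3, h4, h5, h6⟩ := hG x (mem_filter.mp hx).1
    refine ⟨mem_image_of_mem _ h1, mem_image_of_mem _ h2, ?_, ?_⟩
    · rw [← a1, ← a2]
      simp only
      rw [part_mul_free hJ h3, part_mul_free hJ h4, h5]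
    · have hf1 : x.1.factorization p0 = x0.1.factorization p0 := by
        have := congrFun (mem_filter.mp hx).2 ⟨p0, hp0⟩
        simp only [Φ, Prod.mk.injEq] at this
        exact this.1
      have hf2 : x.2.factorization p0 = x0.2.factorization p0 := by
        have := congrFun (mem_filter.mp hx).2 ⟨p0, hp0⟩
        simp only [Φ, Prod.mk.injEq] at this
        exact this.2
      intro s hs1 hs2
      rw [hv1] at hs1 ⊢
      rw [hv2] at hs2 ⊢
      have := h6.2 s (by rw [hf1]; exact hs1) (by rw [hf2]; exact hs2)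
      rw [hf1, hf2] at this
      exact this
  calc G.card ≤ 2 ^ (2 * D) * (G.image Φ).card := card_le_mul_card_image G _ hfib
    _ ≤ 2 ^ (2 * D) * (2 * (D + 1)) ^ J.card := Nat.mul_le_mul_left _ him
    _ = _ := mul_comm _ _

open Classical in
/-- M5 -/
theorem sums_of_spread (A J : Finset ℕ) (hA : 0 ∉ A) (hJ : ∀ p ∈ J, p.Prime) (hJne : J.Nonempty)
    (Q D S L : ℕ) (hQ : 3 ≤ Q) (hD : A.card < Q ^ (D + 1))
    (hS : A.card * (Q - 1) ^ (S + 1) < Q ^ (S + 1))
    (hL : 2 * J.card * (2 * S + 1) + 2 * S ^ 2 ≤ L)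
    (hspread : ∀ p ∈ J, ∀ a ∈ A, ∀ s,
        L * (A.filter fun a' => free J a' = free J a ∧ a'.factorization p = s).card ≤
          (A.filter fun a' => free J a' = free J a).card) :
    A.card ^ 2 ≤ 2 * (sums A).card * ((2 * (D + 1)) ^ J.card * 2 ^ (2 * D)) := by
  obtain ⟨p0, hp0⟩ := hJne
  set W := A.image (free J) with hW
  have hWcard : W.card ≤ A.card := card_image_le
  have hSW : W.card * (Q - 1) ^ (S + 1) < Q ^ (S + 1) :=
    lt_of_le_of_lt (Nat.mul_le_mul_right _ hWcard) hS
  -- special level sets
  have hTA : ∀ p a, ∃ T : Finset ℕ, T.card ≤ S ∧ (a ∈ A → ∀ l, Spec p Q A l a → l ∈ T) := by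
    intro p a
    by_cases ha : a ∈ A
    · obtain ⟨T, h1, h2⟩ := exists_spec_bound (p := p) (Q := Q) ha hS
      exact ⟨T, h1, fun _ => h2⟩
    · exact ⟨∅, by simp, fun h => absurd h ha⟩
  have hTW : ∀ w, ∃ T : Finset ℕ, T.card ≤ S ∧ (w ∈ W → ∀ l, Spec p0 Q W l w → l ∈ T) := by
    intro w
    by_cases hw : w ∈ W
    · obtain ⟨T, h1, h2⟩ := exists_spec_bound (p := p0) (Q := Q) hw hSW
      exact ⟨T, h1, fun _ => h2⟩
    · exact ⟨∅, by simp, fun h => absurd h hw⟩
  choose TA hTA1 hTA2 using hTA
  choose TW hTW1 hTW2 using hTW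
  -- counting bad pairs
  have b1 : ∀ p ∈ J, L * ((A ×ˢ A).filter fun x => x.1.factorization p =
      x.2.factorization p).card ≤ 1 * A.card ^ 2 := by
    intro p hp
    have h := prod_count A (fun a b => a.factorization p = b.factorization p) 1 L (by
      intro b hb
      have := spread_count A J L p (hspread p hp) (fun _ => {b.factorization p}) 1
        (fun _ => by simp)
      simp only [mem_singleton] at this
      convert this)
    convert h
  have b2 : ∀ p ∈ J, L * ((A ×ˢ A).filter fun x => Spec p Q A (x.2.factorization p) x.1).card ≤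
      S * A.card ^ 2 := by
    intro p hp
    refine prod_count' A (fun a b => Spec p Q A (b.factorization p) a) S L fun a ha => ?_
    have h1 := spread_count A J L p (hspread p hp) (fun _ => TA p a) S (fun _ => hTA1 p a)
    refine le_trans (Nat.mul_le_mul_left _ (card_le_card ?_)) h1
    intro b hb
    rw [mem_filter] at hb ⊢
    exact ⟨hb.1, hTA2 p a ha _ hb.2⟩
  have b3 : ∀ p ∈ J, L * ((A ×ˢ A).filter fun x => Spec p Q A (x.1.factorization p) x.2).card ≤
      S * A.card ^ 2 := by
    intro p hp
    refine prod_count A (fun a b => Spec p Q A (a.factorization p) b) S L fun b hb => ?_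
    have h1 := spread_count A J L p (hspread p hp) (fun _ => TA p b) S (fun _ => hTA1 p b)
    refine le_trans (Nat.mul_le_mul_left _ (card_le_card ?_)) h1
    intro a ha
    rw [mem_filter] at ha ⊢
    exact ⟨ha.1, hTA2 p b hb _ ha.2⟩
  have b4 : L * ((A ×ˢ A).filter fun x => ∃ s, x.1.factorization p0 ≤ s ∧
      x.2.factorization p0 ≤ s ∧
      (Spec p0 Q W (s - x.1.factorization p0) (free J x.1) ∧
      Spec p0 Q W (s - x.2.factorization p0) (free J x.2))).card ≤ S ^ 2 * A.card ^ 2 := by
    refine prod_count A (fun a b => ∃ s, a.factorization p0 ≤ s ∧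
      b.factorization p0 ≤ s ∧
      (Spec p0 Q W (s - a.factorization p0) (free J a) ∧
      Spec p0 Q W (s - b.factorization p0) (free J b))) (S ^ 2) L fun b hb => ?_
    have h1 := spread_count A J L p0 (hspread p0 hp0)
      (fun w => (TW w ×ˢ TW (free J b)).image fun l => l.2 + b.factorization p0 - l.1) (S ^ 2)
      (fun w => card_image_le.trans (by
        rw [card_product, sq]
        exact Nat.mul_le_mul (hTW1 _) (hTW1 _)))
    refine le_trans (Nat.mul_le_mul_left _ (card_le_card ?_)) h1
    intro a ha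
    rw [mem_filter] at ha ⊢
    obtain ⟨haA, s, hs1, hs2, hs3, hs4⟩ := ha
    refine ⟨haA, mem_image.mpr ⟨(s - a.factorization p0, s - b.factorization p0), ?_, ?_⟩⟩
    · rw [mem_product]
      exact ⟨hTW2 _ (mem_image_of_mem _ haA) _ hs3, hTW2 _ (mem_image_of_mem _ hb) _ hs4⟩
    · simp only
      omega
  set G := (A ×ˢ A).filter (Good A J Q p0) with hGdef
  -- bad pairs
  have hbad : L * ((A ×ˢ A).filter fun x => ¬ Good A J Q p0 x).card ≤
      (J.card * (2 * S + 1) + S ^ 2) * A.card ^ 2 := by
    have hsub : ((A ×ˢ A).filter fun x => ¬ Good A J Q p0 x) ⊆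
        (J.biUnion fun p => ((A ×ˢ A).filter fun x => x.1.factorization p =
          x.2.factorization p) ∪ (((A ×ˢ A).filter fun x =>
            Spec p Q A (x.2.factorization p) x.1) ∪ ((A ×ˢ A).filter fun x =>
              Spec p Q A (x.1.factorization p) x.2))) ∪
        ((A ×ˢ A).filter fun x => ∃ s, x.1.factorization p0 ≤ s ∧
          x.2.factorization p0 ≤ s ∧
          (Spec p0 Q W (s - x.1.factorization p0) (free J x.1) ∧
          Spec p0 Q W (s - x.2.factorization p0) (free J x.2))) := by
      intro x hx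
      rw [mem_filter] at hx
      obtain ⟨hxA, hx⟩ := hx
      rw [mem_union]
      by_cases h1 : ∀ p ∈ J, x.1.factorization p ≠ x.2.factorization p ∧
        ¬ Spec p Q A (x.2.factorization p) x.1 ∧ ¬ Spec p Q A (x.1.factorization p) x.2
      · right
        rw [mem_filter]
        refine ⟨hxA, ?_⟩
        by_contra hcon
        apply hx
        refine ⟨h1, fun s hs1 hs2 h => hcon ⟨s, hs1, hs2, h⟩⟩
      · left
        push Not at h1
        obtain ⟨p, hp, h1⟩ := h1
        rw [mem_biUnion]
        refine ⟨p, hp, ?_⟩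
        rw [mem_union, mem_union, mem_filter, mem_filter, mem_filter]
        by_cases e1 : x.1.factorization p = x.2.factorization p
        · exact Or.inl ⟨hxA, e1⟩
        · by_cases e2 : Spec p Q A (x.2.factorization p) x.1
          · exact Or.inr (Or.inl ⟨hxA, e2⟩)
          · exact Or.inr (Or.inr ⟨hxA, h1 e1 e2⟩)
    calc L * ((A ×ˢ A).filter fun x => ¬ Good A J Q p0 x).card
        ≤ L * (∑ p ∈ J, (((A ×ˢ A).filter fun x => x.1.factorization p =
          x.2.factorization p).card + (((A ×ˢ A).filter fun x =>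
            Spec p Q A (x.2.factorization p) x.1).card + ((A ×ˢ A).filter fun x =>
              Spec p Q A (x.1.factorization p) x.2).card)) +
        ((A ×ˢ A).filter fun x => ∃ s, x.1.factorization p0 ≤ s ∧
          x.2.factorization p0 ≤ s ∧
          (Spec p0 Q W (s - x.1.factorization p0) (free J x.1) ∧
          Spec p0 Q W (s - x.2.factorization p0) (free J x.2))).card) := by
          refine Nat.mul_le_mul_left _ ((card_le_card hsub).trans ((card_union_le _ _).trans ?_))
          refine Nat.add_le_add_right (card_biUnion_le.trans (sum_le_sum fun p _ => ?_)) _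
          refine (card_union_le _ _).trans (Nat.add_le_add_left (card_union_le _ _) _)
      _ ≤ ∑ p ∈ J, (1 * A.card ^ 2 + (S * A.card ^ 2 + S * A.card ^ 2)) +
          S ^ 2 * A.card ^ 2 := by
          rw [mul_add, mul_sum]
          refine Nat.add_le_add (sum_le_sum fun p hp => ?_) b4
          rw [mul_add, mul_add]
          exact Nat.add_le_add (b1 p hp) (Nat.add_le_add (b2 p hp) (b3 p hp))
      _ = _ := by rw [sum_const, smul_eq_mul]; ring
  have hLpos : 0 < L := by
    have : 0 < J.card := card_pos.mpr ⟨p0, hp0⟩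
    nlinarith
  have hbad2 : 2 * ((A ×ˢ A).filter fun x => ¬ Good A J Q p0 x).card ≤ A.card ^ 2 := by
    refine Nat.le_of_mul_le_mul_left (c := L) ?_ hLpos
    calc L * (2 * ((A ×ˢ A).filter fun x => ¬ Good A J Q p0 x).card)
        = 2 * (L * ((A ×ˢ A).filter fun x => ¬ Good A J Q p0 x).card) := by ring
      _ ≤ 2 * ((J.card * (2 * S + 1) + S ^ 2) * A.card ^ 2) := Nat.mul_le_mul_left _ hbad
      _ = (2 * J.card * (2 * S + 1) + 2 * S ^ 2) * A.card ^ 2 := by ring
      _ ≤ L * A.card ^ 2 := Nat.mul_le_mul_right _ hL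
  have htot : G.card + ((A ×ˢ A).filter fun x => ¬ Good A J Q p0 x).card = A.card ^ 2 := by
    rw [hGdef, card_filter_add_card_filter_not, card_product, sq]
  have hGcard : G.card ≤ ((2 * (D + 1)) ^ J.card * 2 ^ (2 * D)) * (sums A).card := by
    have h1 := card_le_mul_card_image (f := fun x : ℕ × ℕ => x.1 + x.2) G
      ((2 * (D + 1)) ^ J.card * 2 ^ (2 * D)) (fun σ _ => good_fibre hA hJ hp0 hQ hD σ)
    refine h1.trans (Nat.mul_le_mul_left _ (card_le_card ?_))
    unfold sums
    exact image_subset_image (filter_subset _ _)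
  calc A.card ^ 2 ≤ 2 * G.card := by omega
    _ ≤ 2 * (((2 * (D + 1)) ^ J.card * 2 ^ (2 * D)) * (sums A).card) :=
        Nat.mul_le_mul_left _ hGcard
    _ = _ := by ring

end Pool.Agent.H116SP
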