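import Mathlib
import Pool.Agent.H116SP.Defs

/-! Module M7: product side (many products, or a large subset with large fibres). -/

open Finset

namespace Pool.Agent.H116SP

namespace M7

/-- factorization of `part J a` -/
theorem part_factorization (J : Finset ℕ) (hJ : ∀ p ∈ J, p.Prime) (a q : ℕ) :
    (part J a).factorization q = if q ∈ J then a.factorization q else 0 := by
  unfold part
  rw [Nat.factorization_prod (fun p hp => pow_ne_zero _ (hJ p hp).ne_zero)]
  rw [Finsupp.coe_finset_sum, Finset.sum_apply]
  have h1 : ∀ p ∈ J, ((p ^ a.factorization p).factorization) q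
      = if p = q then a.factorization p else 0 := by
    intro p hp
    rw [(hJ p hp).factorization_pow]
    rw [Finsupp.single_apply]
  rw [Finset.sum_congr rfl h1]
  rw [Finset.sum_ite_eq']

theorem part_ne_zero (J : Finset ℕ) (hJ : ∀ p ∈ J, p.Prime) (a : ℕ) : part J a ≠ 0 := by
  unfold part
  exact Finset.prod_ne_zero_iff.2 (fun p hp => pow_ne_zero _ (hJ p hp).ne_zero)

theorem part_dvd (J : Finset ℕ) (hJ : ∀ p ∈ J, p.Prime) (a : ℕ) (ha : a ≠ 0) : part J a ∣ a := by
  rw [← Nat.factorization_le_iff_dvd (part_ne_zero J hJ a) ha]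
  intro q
  rw [part_factorization J hJ]
  split_ifs <;> simp

theorem free_factorization (J : Finset ℕ) (hJ : ∀ p ∈ J, p.Prime) (a : ℕ) (ha : a ≠ 0) (q : ℕ) :
    (free J a).factorization q = if q ∈ J then 0 else a.factorization q := by
  unfold free
  rw [Nat.factorization_div (part_dvd J hJ a ha)]
  rw [Finsupp.tsub_apply, part_factorization J hJ]
  split_ifs <;> simp

theorem free_ne_zero (J : Finset ℕ) (hJ : ∀ p ∈ J, p.Prime) (a : ℕ) (ha : a ≠ 0) :
    free J a ≠ 0 := by
  unfold free
  exact Nat.div_ne_zero_iff.2 ⟨part_ne_zero J hJ a,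
    Nat.le_of_dvd (Nat.pos_of_ne_zero ha) (part_dvd J hJ a ha)⟩

theorem free_eq_of (J : Finset ℕ) (hJ : ∀ p ∈ J, p.Prime) (a b : ℕ) (ha : a ≠ 0) (hb : b ≠ 0)
    (h : ∀ q, q ∉ J → a.factorization q = b.factorization q) : free J a = free J b := by
  apply Nat.eq_of_factorization_eq (free_ne_zero J hJ a ha) (free_ne_zero J hJ b hb)
  intro q
  rw [free_factorization J hJ a ha, free_factorization J hJ b hb]
  by_cases hq : q ∈ J
  · simp [hq]
  · simp [hq, h q hq]

/-- number of exponent vectors -/
theorem card_vec (S : Finset ℕ) : ∀ (m : ℕ) (E : Finset (ℕ → ℕ)),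
    (∀ e ∈ E, (∀ p, p ∉ S → e p = 0) ∧ ∑ p ∈ S, e p ≤ m) → E.card ≤ 2 ^ (S.card + m) := by
  classical
  induction S using Finset.induction_on with
  | empty =>
    intro m E hE
    have : E.card ≤ 1 := by
      rw [Finset.card_le_one]
      intro e he e' he'
      funext p
      rw [(hE e he).1 p (by simp), (hE e' he').1 p (by simp)]
    exact this.trans Nat.one_le_two_pow
  | insert q S hq ih =>
    intro m E hE
    have hcard : ∀ j ∈ Finset.range (m + 1),
        (E.filter fun e => e q = j).card ≤ 2 ^ (S.card + (m - j)) := by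
      intro j hj
      have hinj : Set.InjOn (fun e : ℕ → ℕ => Function.update e q 0)
          (E.filter fun e => e q = j) := by
        intro e he e' he' hee
        simp only [Finset.coe_filter, Set.mem_setOf_eq] at he he'
        funext p
        by_cases hp : p = q
        · subst hp
          rw [he.2, he'.2]
        · have := congrFun hee p
          simpa [Function.update_of_ne hp] using this
      rw [← Finset.card_image_of_injOn hinj]
      apply ih
      intro e he
      rw [Finset.mem_image] at he
      obtain ⟨e0, he0, rfl⟩ := he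
      rw [Finset.mem_filter] at he0
      obtain ⟨h1, h2⟩ := hE e0 he0.1
      constructor
      · intro p hp
        by_cases hpq : p = q
        · subst hpq; simp
        · rw [Function.update_of_ne hpq]
          exact h1 p (by simp [hpq, hp])
      · rw [Finset.sum_insert hq] at h2
        have h3 : ∑ p ∈ S, Function.update e0 q 0 p = ∑ p ∈ S, e0 p := by
          apply Finset.sum_congr rfl
          intro p hp
          rw [Function.update_of_ne (by rintro rfl; exact hq hp)]
        rw [h3]
        have := he0.2
        omega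
    have hsum : E.card = ∑ j ∈ Finset.range (m + 1), (E.filter fun e => e q = j).card := by
      apply Finset.card_eq_sum_card_fiberwise
      intro e he
      have h2 := (hE e he).2
      rw [Finset.sum_insert hq] at h2
      simp only [Finset.coe_range, Set.mem_Iio]
      omega
    rw [hsum, Finset.card_insert_of_notMem hq]
    calc ∑ j ∈ Finset.range (m + 1), (E.filter fun e => e q = j).card
        ≤ ∑ j ∈ Finset.range (m + 1), 2 ^ (S.card + (m - j)) := Finset.sum_le_sum hcard
      _ = ∑ j ∈ Finset.range (m + 1), 2 ^ S.card * 2 ^ (m + 1 - 1 - j) := by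
          apply Finset.sum_congr rfl
          intro j _
          rw [pow_add]; rfl
      _ = 2 ^ S.card * ∑ j ∈ Finset.range (m + 1), 2 ^ (m + 1 - 1 - j) := by
          rw [Finset.mul_sum]
      _ = 2 ^ S.card * ∑ j ∈ Finset.range (m + 1), 2 ^ j := by
          rw [Finset.sum_range_reflect (fun j => 2 ^ j) (m + 1)]
      _ ≤ 2 ^ S.card * 2 ^ (m + 1) := by
          apply Nat.mul_le_mul_left
          exact (Nat.geomSum_lt (le_refl 2) (fun k hk => Finset.mem_range.1 hk)).le
      _ = 2 ^ (S.card + 1 + m) := by ring

end M7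

open M7

/-- (M7) product side: either many products or a large subset with large fibres over a `J`-free
part. `T a` is the set of exceptional primes of `a`. -/
theorem products_or_fibres (A : Finset ℕ) (hA : 0 ∉ A) (hne : A.Nonempty) (k m M : ℕ) (hM : 1 ≤ M)
    (T : ℕ → Finset ℕ) (hT : ∀ a ∈ A, T a ⊆ a.primeFactors) (hTk : ∀ a ∈ A, (T a).card ≤ k)
    (hTm : ∀ a ∈ A, ∑ p ∈ a.primeFactors \ T a, a.factorization p ≤ m) :
    (3 * A.card ^ 2 ≤ 8 * (prods A).card * ((8 * (k + 1)) ^ (2 * k) * 2 ^ (8 * k + 10 * m) * M)) ∨
    ∃ J A' : Finset ℕ, A' ⊆ A ∧ A'.Nonempty ∧ J.card ≤ k ∧ (∀ p ∈ J, p.Prime) ∧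
      A.card ≤ 2 * A'.card * (8 * (k + 1)) ^ k ∧
      ∀ a ∈ A', M ≤ (A'.filter fun a' => free J a' = free J a).card := by
  classical
  set Λ : ℕ := 8 * (k + 1) with hΛ
  have hΛ1 : 1 ≤ Λ := by omega
  set U : Finset ℕ := A.biUnion T with hU
  -- maximiser
  obtain ⟨J, hJU, hJmax⟩ := Finset.exists_max_image U.powerset
    (fun J => (A.filter fun a => J ⊆ T a).card * Λ ^ J.card) ⟨∅, by simp⟩
  set AJ : Finset ℕ := A.filter fun a => J ⊆ T a with hAJ
  have hAJA : AJ ⊆ A := Finset.filter_subset _ _
  have hApos : 0 < A.card := Finset.card_pos.2 hne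
  have h0 : A.card ≤ AJ.card * Λ ^ J.card := by
    have := hJmax ∅ (by simp)
    simpa using this
  have hAJpos : 0 < AJ.card := by
    rcases Nat.eq_zero_or_pos AJ.card with h | h
    · rw [h] at h0; omega
    · exact h
  obtain ⟨a0, ha0⟩ := Finset.card_pos.1 hAJpos
  have ha0' := Finset.mem_filter.1 ha0
  have hJk : J.card ≤ k := (Finset.card_le_card ha0'.2).trans (hTk a0 ha0'.1)
  have hJp : ∀ p ∈ J, p.Prime := fun p hp =>
    Nat.prime_of_mem_primeFactors (hT a0 ha0'.1 (ha0'.2 hp))
  have hAJk : A.card ≤ AJ.card * Λ ^ k :=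
    h0.trans (Nat.mul_le_mul_left _ (Nat.pow_le_pow_right hΛ1 hJk))
  -- light primes
  have hlight : ∀ p, p ∉ J → Λ * (AJ.filter fun b => p ∈ T b).card ≤ AJ.card := by
    intro p hp
    have hEq : (AJ.filter fun b => p ∈ T b) = A.filter fun a => insert p J ⊆ T a := by
      ext b
      simp only [hAJ, Finset.mem_filter, Finset.insert_subset_iff]
      tauto
    by_cases hpU : p ∈ U
    · have h1 := hJmax (insert p J) (by
        rw [Finset.mem_powerset] at hJU ⊢
        exact Finset.insert_subset hpU hJU)
      rw [Finset.card_insert_of_notMem hp, ← hEq] at h1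
      have h2 : (Λ * (AJ.filter fun b => p ∈ T b).card) * Λ ^ J.card ≤ AJ.card * Λ ^ J.card := by
        calc (Λ * (AJ.filter fun b => p ∈ T b).card) * Λ ^ J.card
            = (AJ.filter fun b => p ∈ T b).card * Λ ^ (J.card + 1) := by ring
          _ ≤ _ := h1
      exact Nat.le_of_mul_le_mul_right h2 (by positivity)
    · have : (AJ.filter fun b => p ∈ T b) = ∅ := by
        apply Finset.filter_eq_empty_iff.2
        intro b hb hpb
        apply hpU
        rw [hU, Finset.mem_biUnion]
        exact ⟨b, hAJA hb, hpb⟩
      rw [this]; simp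
  have hbad : ∀ a ∈ AJ, 8 * (AJ.filter fun b => ¬ T a ∩ T b = J).card ≤ AJ.card := by
    intro a ha
    have hsub : (AJ.filter fun b => ¬ T a ∩ T b = J) ⊆
        (T a \ J).biUnion fun p => AJ.filter fun b => p ∈ T b := by
      intro b hb
      rw [Finset.mem_filter] at hb
      have hJa : J ⊆ T a := (Finset.mem_filter.1 ha).2
      have hJb : J ⊆ T b := (Finset.mem_filter.1 hb.1).2
      have hJi : J ⊆ T a ∩ T b := Finset.subset_inter hJa hJb
      have : ¬ (T a ∩ T b ⊆ J) := fun h => hb.2 (Finset.Subset.antisymm h hJi)
      rw [Finset.not_subset] at this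
      obtain ⟨p, hp, hpJ⟩ := this
      rw [Finset.mem_inter] at hp
      rw [Finset.mem_biUnion]
      exact ⟨p, Finset.mem_sdiff.2 ⟨hp.1, hpJ⟩, Finset.mem_filter.2 ⟨hb.1, hp.2⟩⟩
    have h1 : (AJ.filter fun b => ¬ T a ∩ T b = J).card ≤
        ∑ p ∈ T a \ J, (AJ.filter fun b => p ∈ T b).card :=
      (Finset.card_le_card hsub).trans Finset.card_biUnion_le
    have h2 : Λ * ∑ p ∈ T a \ J, (AJ.filter fun b => p ∈ T b).card ≤ k * AJ.card := by
      rw [Finset.mul_sum]
      calc ∑ p ∈ T a \ J, Λ * (AJ.filter fun b => p ∈ T b).card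
          ≤ ∑ p ∈ T a \ J, AJ.card := by
            apply Finset.sum_le_sum
            intro p hp
            exact hlight p (Finset.mem_sdiff.1 hp).2
        _ = (T a \ J).card * AJ.card := by rw [Finset.sum_const, smul_eq_mul]
        _ ≤ k * AJ.card := by
            apply Nat.mul_le_mul_right
            exact (Finset.card_le_card Finset.sdiff_subset).trans (hTk a (hAJA ha))
    have h3 : (k + 1) * (8 * (AJ.filter fun b => ¬ T a ∩ T b = J).card) ≤ (k + 1) * AJ.card := by
      calc (k + 1) * (8 * (AJ.filter fun b => ¬ T a ∩ T b = J).card)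
          = Λ * (AJ.filter fun b => ¬ T a ∩ T b = J).card := by rw [hΛ]; ring
        _ ≤ Λ * ∑ p ∈ T a \ J, (AJ.filter fun b => p ∈ T b).card := Nat.mul_le_mul_left _ h1
        _ ≤ k * AJ.card := h2
        _ ≤ (k + 1) * AJ.card := Nat.mul_le_mul_right _ (Nat.le_succ k)
    exact Nat.le_of_mul_le_mul_left h3 (Nat.succ_pos k)
  -- small fibres
  set f : ℕ → ℕ := fun a => (AJ.filter fun a' => free J a' = free J a).card with hf
  set B : Finset ℕ := AJ.filter fun a => f a < M with hB
  by_cases hBc : AJ.card ≤ 2 * B.card
  · left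
    -- good pairs
    set G : Finset (ℕ × ℕ) := (B ×ˢ AJ).filter fun x => T x.1 ∩ T x.2 = J with hG
    have hGlow : 7 * (B.card * AJ.card) ≤ 8 * G.card := by
      have hcardG : G.card = ∑ a ∈ B, (AJ.filter fun b => T a ∩ T b = J).card := by
        rw [hG, Finset.card_filter, Finset.sum_product]
        apply Finset.sum_congr rfl
        intro a _
        rw [Finset.card_filter]
      rw [hcardG, Finset.mul_sum]
      calc 7 * (B.card * AJ.card) = ∑ a ∈ B, 7 * AJ.card := by
            rw [Finset.sum_const, smul_eq_mul]; ring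
        _ ≤ ∑ a ∈ B, 8 * (AJ.filter fun b => T a ∩ T b = J).card := by
            apply Finset.sum_le_sum
            intro a ha
            have h1 := hbad a (Finset.mem_filter.1 ha).1
            have h2 := Finset.card_filter_add_card_filter_not (s := AJ) (fun b => T a ∩ T b = J)
            omega
    -- upper bound
    have hGup : G.card ≤ (2 ^ (8 * k + 10 * m) * M) * (prods A).card := by
      have himg : (G.image fun x => x.1 * x.2) ⊆ prods A := by
        intro n hn
        rw [Finset.mem_image] at hn
        obtain ⟨x, hx, rfl⟩ := hn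
        rw [hG, Finset.mem_filter, Finset.mem_product] at hx
        unfold prods
        rw [Finset.mem_image]
        exact ⟨x, Finset.mem_product.2 ⟨hAJA (Finset.mem_filter.1 hx.1.1).1, hAJA hx.1.2⟩, rfl⟩
      refine le_trans (Finset.card_le_mul_card_image (f := fun x : ℕ × ℕ => x.1 * x.2) G
        (2 ^ (8 * k + 10 * m) * M) ?_) (Nat.mul_le_mul_left _ (Finset.card_le_card himg))
      intro n hn
      rw [Finset.mem_image] at hn
      obtain ⟨x0, hx0, hx0n⟩ := hn
      -- membership data
      have hmem : ∀ x ∈ G, x.1 ∈ B ∧ x.1 ∈ AJ ∧ x.1 ∈ A ∧ x.2 ∈ AJ ∧ x.2 ∈ A ∧ x.1 ≠ 0 ∧ x.2 ≠ 0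
          ∧ T x.1 ∩ T x.2 = J := by
        intro x hx
        rw [hG, Finset.mem_filter, Finset.mem_product] at hx
        have h1 := (Finset.mem_filter.1 hx.1.1).1
        exact ⟨hx.1.1, h1, hAJA h1, hx.1.2, hAJA hx.1.2, fun h => hA (h ▸ hAJA h1),
          fun h => hA (h ▸ hAJA hx.1.2), hx.2⟩
      set e : ℕ → ℕ → ℕ := fun a p => if p ∈ T a then 0 else a.factorization p with he
      set dat : ℕ × ℕ → (Finset ℕ × Finset ℕ) × ((ℕ → ℕ) × (ℕ → ℕ)) :=
        fun x => ((T x.1, T x.2), (e x.1, e x.2)) with hdat
      set Gn : Finset (ℕ × ℕ) := G.filter fun x => x.1 * x.2 = n with hGn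
      have hn0 : n ≠ 0 := by
        rw [← hx0n]
        have := hmem x0 hx0
        exact Nat.mul_ne_zero this.2.2.2.2.2.1 this.2.2.2.2.2.2.1
      -- omega bound
      have homA : ∀ a ∈ A, a.primeFactors.card ≤ k + m := by
        intro a ha
        have h1 : a.primeFactors.card ≤ (T a).card + (a.primeFactors \ T a).card := by
          rw [add_comm]
          calc a.primeFactors.card ≤ ((a.primeFactors \ T a) ∪ T a).card := by
                apply Finset.card_le_card
                rw [Finset.sdiff_union_self_eq_union]
                exact Finset.subset_union_left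
            _ ≤ _ := Finset.card_union_le _ _
        have h2 : (a.primeFactors \ T a).card ≤ ∑ p ∈ a.primeFactors \ T a, a.factorization p := by
          rw [Finset.card_eq_sum_ones]
          apply Finset.sum_le_sum
          intro p hp
          have hp' := (Finset.mem_sdiff.1 hp).1
          exact (Nat.prime_of_mem_primeFactors hp').factorization_pos_of_dvd
            (fun h => hA (h ▸ ha)) (Nat.dvd_of_mem_primeFactors hp')
        have h3 := hTm a ha
        have h4 := hTk a ha
        omega
      have hom : n.primeFactors.card ≤ 2 * (k + m) := by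
        obtain ⟨_, _, h1, _, h2, h3, h4, _⟩ := hmem x0 hx0
        rw [← hx0n, Nat.primeFactors_mul h3 h4]
        calc _ ≤ x0.1.primeFactors.card + x0.2.primeFactors.card := Finset.card_union_le _ _
          _ ≤ _ := by
            have := homA _ h1
            have := homA _ h2
            omega
      -- fibres of dat
      have hfib : Gn.card ≤ M * (Gn.image dat).card := by
        apply Finset.card_le_mul_card_image
        intro d hd
        rw [Finset.mem_image] at hd
        obtain ⟨y, hy, hyd⟩ := hd
        rw [hGn, Finset.mem_filter] at hy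
        have hym := hmem y hy.1
        have hfy : f y.1 < M := (Finset.mem_filter.1 hym.1).2
        refine le_trans ?_ hfy.le
        rw [hf]
        apply Finset.card_le_card_of_injOn (fun x => x.1)
        · intro x hx
          rw [Finset.mem_coe, Finset.mem_filter, hGn, Finset.mem_filter] at hx
          have hxm := hmem x hx.1.1
          rw [Finset.mem_coe, Finset.mem_filter]
          refine ⟨hxm.2.1, ?_⟩
          have hxd : dat x = dat y := by rw [hx.2, hyd]
          rw [hdat] at hxd
          simp only [Prod.mk.injEq] at hxd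
          obtain ⟨⟨hd1, hd2⟩, hd3, hd4⟩ := hxd
          apply free_eq_of J hJp _ _ hxm.2.2.2.2.2.1 hym.2.2.2.2.2.1
          intro q hq
          by_cases hqT : q ∈ T x.1
          · have hqT2 : q ∉ T x.2 := by
              intro h
              apply hq
              rw [← hxm.2.2.2.2.2.2.2]
              exact Finset.mem_inter.2 ⟨hqT, h⟩
            have h5 := congrFun hd4 q
            simp only [he] at h5
            rw [if_neg hqT2, if_neg (hd2 ▸ hqT2)] at h5
            have h6 : (x.1 * x.2).factorization q = (y.1 * y.2).factorization q := by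
              rw [hx.1.2, hy.2]
            rw [Nat.factorization_mul hxm.2.2.2.2.2.1 hxm.2.2.2.2.2.2.1,
              Nat.factorization_mul hym.2.2.2.2.2.1 hym.2.2.2.2.2.2.1, Finsupp.add_apply,
              Finsupp.add_apply, h5] at h6
            omega
          · have h5 := congrFun hd3 q
            simp only [he] at h5
            rw [if_neg hqT, if_neg (hd1 ▸ hqT)] at h5
            exact h5
        · intro x hx x' hx' hxx
          rw [Finset.mem_coe, Finset.mem_filter, hGn, Finset.mem_filter] at hx hx'
          have hxm := hmem x hx.1.1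
          have hxx' : x.1 = x'.1 := hxx
          apply Prod.ext hxx'
          have h7 : x.1 * x.2 = x.1 * x'.2 := by
            rw [hx.1.2]
            rw [hxx', hx'.1.2]
          exact Nat.eq_of_mul_eq_mul_left (Nat.pos_of_ne_zero hxm.2.2.2.2.2.1) h7
      -- size of the image of dat
      have hvec : ∀ E : Finset (ℕ → ℕ), (∀ v ∈ E, ∃ a ∈ A, a ∣ n ∧ v = e a) →
          E.card ≤ 2 ^ (2 * (k + m) + m) := by
        intro E hE
        refine le_trans (card_vec n.primeFactors m E ?_) (Nat.pow_le_pow_right (by norm_num)
          (by omega))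
        intro v hv
        obtain ⟨a, ha, han, rfl⟩ := hE v hv
        have hsub : a.primeFactors ⊆ n.primeFactors := Nat.primeFactors_mono han hn0
        constructor
        · intro p hp
          simp only [he]
          split_ifs
          · rfl
          · apply Finsupp.notMem_support_iff.1
            rw [Nat.support_factorization]
            exact fun h => hp (hsub h)
        · have h8 : ∑ p ∈ n.primeFactors, e a p = ∑ p ∈ a.primeFactors \ T a, a.factorization p := by
            symm
            rw [← Finset.sum_subset (s₁ := a.primeFactors \ T a) (s₂ := n.primeFactors)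
              (Finset.sdiff_subset.trans hsub)]
            · apply Finset.sum_congr rfl
              intro p hp
              simp only [he]
              rw [if_neg (Finset.mem_sdiff.1 hp).2]
            · intro p _ hp
              simp only [he]
              split_ifs with hpT
              · rfl
              · apply Finsupp.notMem_support_iff.1
                rw [Nat.support_factorization]
                exact fun h => hp (Finset.mem_sdiff.2 ⟨h, hpT⟩)
          rw [h8]
          exact hTm a ha
      have himc : (Gn.image dat).card ≤ 2 ^ (8 * k + 10 * m) := by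
        have hsub : Gn.image dat ⊆ (n.primeFactors.powerset ×ˢ n.primeFactors.powerset) ×ˢ
            ((Gn.image fun x => e x.1) ×ˢ (Gn.image fun x => e x.2)) := by
          intro d hd
          rw [Finset.mem_image] at hd
          obtain ⟨x, hx, rfl⟩ := hd
          have hx' := hx
          rw [hGn, Finset.mem_filter] at hx'
          have hxm := hmem x hx'.1
          rw [hdat]
          simp only [Finset.mem_product, Finset.mem_powerset]
          refine ⟨⟨?_, ?_⟩, Finset.mem_image_of_mem (fun x => e x.1) hx,
            Finset.mem_image_of_mem (fun x => e x.2) hx⟩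
          · exact (hT _ hxm.2.2.1).trans (Nat.primeFactors_mono ⟨x.2, hx'.2.symm⟩ hn0)
          · exact (hT _ hxm.2.2.2.2.1).trans
              (Nat.primeFactors_mono ⟨x.1, by rw [← hx'.2]; ring⟩ hn0)
        refine (Finset.card_le_card hsub).trans ?_
        rw [Finset.card_product, Finset.card_product, Finset.card_product, Finset.card_powerset]
        have hp1 : 2 ^ n.primeFactors.card ≤ 2 ^ (2 * (k + m)) :=
          Nat.pow_le_pow_right (by norm_num) hom
        have hv1 : (Gn.image fun x => e x.1).card ≤ 2 ^ (2 * (k + m) + m) := by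
          apply hvec
          intro v hv
          rw [Finset.mem_image] at hv
          obtain ⟨x, hx, rfl⟩ := hv
          rw [hGn, Finset.mem_filter] at hx
          exact ⟨x.1, (hmem x hx.1).2.2.1, ⟨x.2, hx.2.symm⟩, rfl⟩
        have hv2 : (Gn.image fun x => e x.2).card ≤ 2 ^ (2 * (k + m) + m) := by
          apply hvec
          intro v hv
          rw [Finset.mem_image] at hv
          obtain ⟨x, hx, rfl⟩ := hv
          rw [hGn, Finset.mem_filter] at hx
          exact ⟨x.2, (hmem x hx.1).2.2.2.2.1, ⟨x.1, by rw [← hx.2]; ring⟩, rfl⟩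
        calc 2 ^ n.primeFactors.card * 2 ^ n.primeFactors.card *
              ((Gn.image fun x => e x.1).card * (Gn.image fun x => e x.2).card)
            ≤ 2 ^ (2 * (k + m)) * 2 ^ (2 * (k + m)) *
              (2 ^ (2 * (k + m) + m) * 2 ^ (2 * (k + m) + m)) :=
              Nat.mul_le_mul (Nat.mul_le_mul hp1 hp1) (Nat.mul_le_mul hv1 hv2)
          _ = 2 ^ (8 * k + 10 * m) := by
              rw [← pow_add, ← pow_add, ← pow_add]
              congr 1
              ring
      calc Gn.card ≤ M * (Gn.image dat).card := hfib
        _ ≤ M * 2 ^ (8 * k + 10 * m) := Nat.mul_le_mul_left _ himc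
        _ = 2 ^ (8 * k + 10 * m) * M := by ring
    -- conclusion
    have h1 : 3 * AJ.card ^ 2 ≤ 8 * ((2 ^ (8 * k + 10 * m) * M) * (prods A).card) := by
      have h2 : 7 * (AJ.card * AJ.card) ≤ 2 * (7 * (B.card * AJ.card)) := by
        calc 7 * (AJ.card * AJ.card) ≤ 7 * ((2 * B.card) * AJ.card) :=
              Nat.mul_le_mul_left _ (Nat.mul_le_mul_right _ hBc)
          _ = _ := by ring
      nlinarith [h2, hGlow, hGup]
    calc 3 * A.card ^ 2 ≤ 3 * (AJ.card * Λ ^ k) ^ 2 :=
          Nat.mul_le_mul_left _ (Nat.pow_le_pow_left hAJk 2)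
      _ = (3 * AJ.card ^ 2) * Λ ^ (2 * k) := by ring
      _ ≤ (8 * ((2 ^ (8 * k + 10 * m) * M) * (prods A).card)) * Λ ^ (2 * k) :=
          Nat.mul_le_mul_right _ h1
      _ = _ := by ring
  · right
    push Not at hBc
    have hBsub : B ⊆ AJ := Finset.filter_subset _ _
    refine ⟨J, AJ \ B, Finset.sdiff_subset.trans hAJA, ?_, hJk, hJp, ?_, ?_⟩
    · rw [← Finset.card_pos, Finset.card_sdiff_of_subset hBsub]
      omega
    · have h1 : AJ.card ≤ 2 * (AJ \ B).card := by
        rw [Finset.card_sdiff_of_subset hBsub]
        omega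
      exact hAJk.trans (Nat.mul_le_mul_right _ h1)
    · intro a ha
      rw [Finset.mem_sdiff] at ha
      have h1 : M ≤ f a := by
        by_contra h
        push Not at h
        exact ha.2 (Finset.mem_filter.2 ⟨ha.1, h⟩)
      refine h1.trans ?_
      rw [hf]
      apply Finset.card_le_card
      intro b hb
      rw [Finset.mem_filter] at hb ⊢
      refine ⟨Finset.mem_sdiff.2 ⟨hb.1, ?_⟩, hb.2⟩
      intro hbB
      have h2 := (Finset.mem_filter.1 hbB).2
      rw [hf] at h2 h1
      simp only [hb.2] at h2
      exact absurd h1 (not_le.2 h2)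

end Pool.Agent.H116SP
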