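import Mathlib
import Pool.Agent.H116SP.Defs
import Pool.Agent.H116SP.M7

/-! Module M6: regularisation. -/

open Finset

namespace Pool.Agent.H116SP

namespace M6

open M7

/-- the sub-fibre of `F` with the exponents of `a₀` on `I` -/
def sub (F : Finset ℕ) (I : Finset ℕ) (a₀ : ℕ) : Finset ℕ :=
  F.filter fun a => ∀ p ∈ I, a.factorization p = a₀.factorization p

/-- one fibre -/
theorem one_fibre (F J : Finset ℕ) (L : ℕ) (hL : 1 ≤ L) (hF : 0 ∉ F) (hJ : ∀ p ∈ J, p.Prime)
    (hne : F.Nonempty) (hfree : ∀ a ∈ F, ∀ b ∈ F, free J a = free J b)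
    (hcard : L ^ J.card < F.card) :
    ∃ I a₀, I ⊆ J ∧ I ≠ J ∧ a₀ ∈ F ∧ F.card ≤ (sub F I a₀).card * L ^ J.card ∧
      ∀ p ∈ J \ I, ∀ s, L * ((sub F I a₀).filter fun a => a.factorization p = s).card ≤
        (sub F I a₀).card := by
  classical
  obtain ⟨a₁, ha₁⟩ := hne
  have hne' : (J.powerset ×ˢ F).Nonempty := ⟨(∅, a₁), by simp [ha₁]⟩
  obtain ⟨⟨I, a₀⟩, hmem, hmax⟩ := Finset.exists_max_image (J.powerset ×ˢ F)
    (fun x => (sub F x.1 x.2).card * L ^ x.1.card) hne'
  rw [Finset.mem_product, Finset.mem_powerset] at hmem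
  obtain ⟨hIJ, ha₀⟩ := hmem
  simp only at hIJ ha₀
  have hmax' : ∀ I' ⊆ J, ∀ b ∈ F, (sub F I' b).card * L ^ I'.card ≤
      (sub F I a₀).card * L ^ I.card := by
    intro I' hI' b hb
    exact hmax (I', b) (by simp [Finset.mem_product, hI', hb])
  have hempty : F.card ≤ (sub F I a₀).card * L ^ I.card := by
    have := hmax' ∅ (by simp) a₁ ha₁
    simpa [sub] using this
  refine ⟨I, a₀, hIJ, ?_, ha₀, ?_, ?_⟩
  · rintro rfl
    have hone : (sub F I a₀).card ≤ 1 := by
      rw [Finset.card_le_one]
      have key : ∀ a ∈ sub F I a₀, a = a₀ := by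
        intro a ha
        rw [sub, Finset.mem_filter] at ha
        have ha0 : a ≠ 0 := fun h => hF (h ▸ ha.1)
        have hb0 : a₀ ≠ 0 := fun h => hF (h ▸ ha₀)
        apply Nat.eq_of_factorization_eq ha0 hb0
        intro q
        by_cases hq : q ∈ I
        · exact ha.2 q hq
        · have h1 := hfree a ha.1 a₀ ha₀
          have h2 := free_factorization I hJ a ha0 q
          have h3 := free_factorization I hJ a₀ hb0 q
          rw [h1] at h2
          rw [h2] at h3
          simpa [hq] using h3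
      intro a ha b hb
      rw [key a ha, key b hb]
    have : (sub F I a₀).card * L ^ I.card ≤ L ^ I.card := by
      calc (sub F I a₀).card * L ^ I.card ≤ 1 * L ^ I.card := Nat.mul_le_mul_right _ hone
        _ = L ^ I.card := one_mul _
    omega
  · refine hempty.trans (Nat.mul_le_mul_left _ ?_)
    exact Nat.pow_le_pow_right hL (Finset.card_le_card hIJ)
  · intro p hp s
    rw [Finset.mem_sdiff] at hp
    by_cases hex : ((sub F I a₀).filter fun a => a.factorization p = s).Nonempty
    · obtain ⟨b, hb⟩ := hex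
      rw [Finset.mem_filter, sub, Finset.mem_filter] at hb
      obtain ⟨⟨hbF, hbI⟩, hbs⟩ := hb
      have hsub : (insert p I) ⊆ J := by
        intro q hq
        rcases Finset.mem_insert.1 hq with rfl | hq
        · exact hp.1
        · exact hIJ hq
      have h1 := hmax' (insert p I) hsub b hbF
      have h2 : sub F (insert p I) b =
          (sub F I a₀).filter fun a => a.factorization p = s := by
        ext a
        simp only [sub, Finset.mem_filter, Finset.mem_insert, forall_eq_or_imp]
        constructor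
        · rintro ⟨haF, hap, haI⟩
          exact ⟨⟨haF, fun q hq => (haI q hq).trans (hbI q hq)⟩, hap.trans hbs⟩
        · rintro ⟨⟨haF, haI⟩, hap⟩
          exact ⟨haF, hap.trans hbs.symm, fun q hq => (haI q hq).trans (hbI q hq).symm⟩
      rw [h2, Finset.card_insert_of_notMem hp.2, pow_succ] at h1
      have hpos : 0 < L ^ I.card := Nat.pos_of_ne_zero (pow_ne_zero _ (by omega))
      have h3 : (L * ((sub F I a₀).filter fun a => a.factorization p = s).card) * L ^ I.card ≤
          (sub F I a₀).card * L ^ I.card := by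
        calc (L * ((sub F I a₀).filter fun a => a.factorization p = s).card) * L ^ I.card
            = ((sub F I a₀).filter fun a => a.factorization p = s).card * (L ^ I.card * L) := by
              ring
          _ ≤ _ := h1
      exact Nat.le_of_mul_le_mul_right h3 hpos
    · rw [Finset.not_nonempty_iff_eq_empty] at hex
      rw [hex]
      simp

end M6

open M6 M7

/-- (M6) regularisation: if all fibres of `A` over the `J`-free part have more than `L ^ |J|`
elements then a large subset has spread fibres over the `J'`-free part, `∅ ≠ J' ⊆ J`. -/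
theorem regularise (A J : Finset ℕ) (L : ℕ) (hL : 1 ≤ L) (hA : 0 ∉ A) (hJ : ∀ p ∈ J, p.Prime)
    (hne : A.Nonempty)
    (hfib : ∀ a ∈ A, L ^ J.card < (A.filter fun a' => free J a' = free J a).card) :
    ∃ J' A', J' ⊆ J ∧ J'.Nonempty ∧ A' ⊆ A ∧ A.card ≤ A'.card * (2 * L) ^ J.card ∧
      ∀ p ∈ J', ∀ a ∈ A', ∀ s,
        L * (A'.filter fun a' => free J' a' = free J' a ∧ a'.factorization p = s).card ≤
          (A'.filter fun a' => free J' a' = free J' a).card := by
  classical
  -- fibres
  set Fib : ℕ → Finset ℕ := fun φ => A.filter fun a' => free J a' = φ with hFib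
  have hone : ∀ φ : ℕ, ∃ I a₀, φ ∈ A.image (free J) → (I ⊆ J ∧ I ≠ J ∧ a₀ ∈ Fib φ ∧
      (Fib φ).card ≤ (sub (Fib φ) I a₀).card * L ^ J.card ∧
      ∀ p ∈ J \ I, ∀ s, L * ((sub (Fib φ) I a₀).filter fun a => a.factorization p = s).card ≤
        (sub (Fib φ) I a₀).card) := by
    intro φ
    by_cases hφ : φ ∈ A.image (free J)
    · obtain ⟨a, ha, rfl⟩ := Finset.mem_image.1 hφ
      obtain ⟨I, a₀, h⟩ := one_fibre (Fib (free J a)) J L hL
        (fun h => hA (Finset.mem_filter.1 h).1) hJ
        ⟨a, by simp [hFib, ha]⟩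
        (fun x hx y hy => by
          rw [(Finset.mem_filter.1 hx).2, (Finset.mem_filter.1 hy).2])
        (hfib a ha)
      exact ⟨I, a₀, fun _ => h⟩
    · exact ⟨∅, 0, fun h => absurd h hφ⟩
  choose I a₀ hIa using hone
  set Φ : ℕ → Finset ℕ := fun φ => sub (Fib φ) (I φ) (a₀ φ) with hΦ
  set A₂ : Finset ℕ := A.filter fun a => a ∈ Φ (free J a) with hA₂
  -- |A| ≤ |A₂| L^{|J|}
  have hcardA : A.card ≤ A₂.card * L ^ J.card := by
    have e1 : A.card = ∑ φ ∈ A.image (free J), (Fib φ).card :=
      Finset.card_eq_sum_card_image (free J) A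
    have e2 : A₂.card = ∑ φ ∈ A.image (free J), (A₂.filter fun a => free J a = φ).card :=
      Finset.card_eq_sum_card_fiberwise (fun a ha =>
        Finset.mem_coe.2 (Finset.mem_image_of_mem _ (Finset.mem_filter.1 ha).1))
    rw [e1, e2, Finset.sum_mul]
    apply Finset.sum_le_sum
    intro φ hφ
    have e3 : (A₂.filter fun a => free J a = φ) = Φ φ := by
      ext a
      simp only [hA₂, Finset.mem_filter]
      constructor
      · rintro ⟨⟨haA, haΦ⟩, rfl⟩
        exact haΦ
      · intro ha
        have h1 : a ∈ Fib φ := (Finset.mem_filter.1 ha).1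
        have h2 := Finset.mem_filter.1 h1
        refine ⟨⟨h2.1, ?_⟩, h2.2⟩
        rw [h2.2]; exact ha
    rw [e3]
    exact (hIa φ hφ).2.2.2.1
  have hA₂ne : A₂.Nonempty := by
    rw [← Finset.card_pos]
    by_contra h
    have h0 : A₂.card = 0 := by omega
    rw [h0, zero_mul] at hcardA
    have := Finset.card_pos.2 hne
    omega
  -- pigeonhole on I
  have hmaps : ∀ a ∈ A₂, I (free J a) ∈ J.powerset := by
    intro a ha
    rw [Finset.mem_powerset]
    exact (hIa _ (Finset.mem_image_of_mem _ (Finset.mem_filter.1 ha).1)).1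
  obtain ⟨I₀, hI₀, hbig⟩ : ∃ I₀ ∈ J.powerset,
      A₂.card ≤ 2 ^ J.card * (A₂.filter fun a => I (free J a) = I₀).card := by
    by_contra hcon
    push Not at hcon
    have e := Finset.card_eq_sum_card_fiberwise (f := fun a => I (free J a)) (s := A₂)
      (t := J.powerset) (fun a ha => Finset.mem_coe.2 (hmaps a ha))
    have h2 : ∀ I₀ ∈ J.powerset,
        2 ^ J.card * (A₂.filter fun a => I (free J a) = I₀).card ≤ A₂.card - 1 := by
      intro I₀ hI₀
      have := hcon I₀ hI₀
      omega
    have h3 : 2 ^ J.card * A₂.card ≤ 2 ^ J.card * (A₂.card - 1) := by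
      calc 2 ^ J.card * A₂.card
          = ∑ I₀ ∈ J.powerset, 2 ^ J.card * (A₂.filter fun a => I (free J a) = I₀).card := by
            rw [← Finset.mul_sum, ← e]
        _ ≤ ∑ I₀ ∈ J.powerset, (A₂.card - 1) := Finset.sum_le_sum h2
        _ = 2 ^ J.card * (A₂.card - 1) := by
            rw [Finset.sum_const, Finset.card_powerset, smul_eq_mul]
    have h4 := Nat.le_of_mul_le_mul_left h3 (by positivity)
    have := Finset.card_pos.2 hA₂ne
    omega
  set A' : Finset ℕ := A₂.filter fun a => I (free J a) = I₀ with hA'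
  have hA'ne : A'.Nonempty := by
    rw [← Finset.card_pos]
    by_contra h
    have h0 : A'.card = 0 := by omega
    rw [h0, mul_zero] at hbig
    have := Finset.card_pos.2 hA₂ne
    omega
  have hI₀J : I₀ ⊆ J := Finset.mem_powerset.1 hI₀
  have hA'mem : ∀ a, a ∈ A' ↔ a ∈ A ∧ a ∈ Φ (free J a) ∧ I (free J a) = I₀ := by
    intro a
    simp only [hA', hA₂, Finset.mem_filter, and_assoc]
  have hI₀ne : I₀ ≠ J := by
    obtain ⟨a, ha⟩ := hA'ne
    rw [hA'mem] at ha
    rw [← ha.2.2]
    exact (hIa _ (Finset.mem_image_of_mem _ ha.1)).2.1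
  have hJ' : ∀ p ∈ J \ I₀, p.Prime := fun p hp => hJ p (Finset.mem_sdiff.1 hp).1
  have hfibeq : ∀ a ∈ A', (A'.filter fun a' => free (J \ I₀) a' = free (J \ I₀) a) =
      Φ (free J a) := by
    intro a ha
    have ha' := (hA'mem a).1 ha
    have ha0 : a ≠ 0 := fun h => hA (h ▸ ha'.1)
    ext a'
    rw [Finset.mem_filter]
    constructor
    · rintro ⟨hm, hfr⟩
      have hm' := (hA'mem a').1 hm
      have ha0' : a' ≠ 0 := fun h => hA (h ▸ hm'.1)
      have h1 : free J a' = free J a := by
        apply free_eq_of J hJ a' a ha0' ha0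
        intro q hq
        have hq' : q ∉ J \ I₀ := fun h => hq (Finset.mem_sdiff.1 h).1
        have e1 := free_factorization (J \ I₀) hJ' a' ha0' q
        have e2 := free_factorization (J \ I₀) hJ' a ha0 q
        rw [hfr] at e1
        rw [e1] at e2
        simpa [hq'] using e2
      rw [← h1]
      exact hm'.2.1
    · intro hm
      have h1 : a' ∈ Fib (free J a) := (Finset.mem_filter.1 hm).1
      have h2 := Finset.mem_filter.1 h1
      have ha0' : a' ≠ 0 := fun h => hA (h ▸ h2.1)
      refine ⟨(hA'mem a').2 ⟨h2.1, ?_, ?_⟩, ?_⟩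
      · rw [h2.2]; exact hm
      · rw [h2.2]; exact ha'.2.2
      · apply free_eq_of (J \ I₀) hJ' a' a ha0' ha0
        intro q hq
        by_cases hqJ : q ∈ J
        · have hqI : q ∈ I (free J a) := by
            rw [ha'.2.2]
            by_contra hqI
            exact hq (Finset.mem_sdiff.2 ⟨hqJ, hqI⟩)
          have e1 := (Finset.mem_filter.1 hm).2 q hqI
          have e2 := (Finset.mem_filter.1 ha'.2.1).2 q hqI
          rw [e1, e2]
        · have e1 := free_factorization J hJ a' ha0' q
          have e2 := free_factorization J hJ a ha0 q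
          rw [h2.2] at e1
          rw [e1] at e2
          simpa [hqJ] using e2
  refine ⟨J \ I₀, A', Finset.sdiff_subset, ?_, ?_, ?_, ?_⟩
  · rw [Finset.sdiff_nonempty]
    intro h
    exact hI₀ne (Finset.Subset.antisymm hI₀J h)
  · intro a ha
    exact ((hA'mem a).1 ha).1
  · calc A.card ≤ A₂.card * L ^ J.card := hcardA
      _ ≤ (2 ^ J.card * A'.card) * L ^ J.card := Nat.mul_le_mul_right _ hbig
      _ = A'.card * (2 * L) ^ J.card := by rw [mul_pow]; ring
  · intro p hp a ha s
    have ha' := (hA'mem a).1 ha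
    have e1 : (A'.filter fun a' => free (J \ I₀) a' = free (J \ I₀) a ∧ a'.factorization p = s) =
        (Φ (free J a)).filter fun a' => a'.factorization p = s := by
      rw [← hfibeq a ha]
      ext b
      simp only [Finset.mem_filter, and_assoc]
    rw [e1, hfibeq a ha]
    have h := (hIa _ (Finset.mem_image_of_mem _ ha'.1)).2.2.2.2 p (by rw [ha'.2.2]; exact hp) s
    exact h

end Pool.Agent.H116SP
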