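import Mathlib

/-! TEAM-SP, module M8: numerics (helper458) -/

namespace Pool.Agent.H116SP

theorem numerics : ∃ C : ℝ, 0 < C ∧ ∀ N k m W l D S L : ℕ, 16 ≤ N → 1 ≤ W → l = Nat.log 2 N + 1 →
    D = Nat.log l N → S = l ^ 2 → L = 2 * k * (2 * S + 1) + 2 * S ^ 2 + 1 →
    N ^ 2 ≤ W * (8 * (8 * (k + 1)) ^ (2 * k) * (2 * L) ^ (2 * k) * (2 * (D + 1)) ^ k *
      2 ^ (2 * D) * 2 ^ (8 * k + 10 * m) * (L ^ k + 1)) →
    (N : ℝ) ^ 2 * Real.exp (-(C * (k * Real.log (Real.log N) + m +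
      Real.log N / Real.log (Real.log N)))) ≤ W := by
  refine ⟨46, by norm_num, ?_⟩
  intro N k m W l D S L hN hW hl hD hS hL hmain
  have hNpos : (0 : ℝ) < N := by positivity
  have hN16 : (16 : ℝ) ≤ N := by exact_mod_cast hN
  set x : ℝ := Real.log N with hx
  set y : ℝ := Real.log x with hy
  have hlog2 := Real.log_two_gt_d9
  have hlog2' := Real.log_two_lt_d9
  have hx1 : 2.77 ≤ x := by
    have h1 : Real.log 16 ≤ x := Real.log_le_log (by norm_num) hN16
    have h2 : Real.log 16 = 4 * Real.log 2 := by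
      rw [show (16 : ℝ) = 2 ^ 4 by norm_num, Real.log_pow]
      norm_num
    rw [h2] at h1
    linarith
  have hx0 : 0 < x := by linarith
  have hy1 : 1 ≤ y := by
    rw [hy, Real.le_log_iff_exp_le hx0]
    have := Real.exp_one_lt_d9
    linarith
  have hy0 : 0 < y := by linarith
  have hyx : y ≤ x := by
    have := Real.log_le_sub_one_of_pos hx0
    linarith
  have hxy1 : 1 ≤ x / y := by rw [le_div_iff₀ hy0]; linarith
  have hexpx : Real.exp x = N := Real.exp_log hNpos
  have hexpy : Real.exp y = x := Real.exp_log hx0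
  have hk0 : (0 : ℝ) ≤ k := Nat.cast_nonneg k
  have hm0 : (0 : ℝ) ≤ m := Nat.cast_nonneg m
  by_cases hk : x / y ≤ k
  · -- trivial range
    have h1 : x ≤ k * y := by rwa [div_le_iff₀ hy0] at hk
    have h2 : (2 : ℝ) * x ≤ 46 * (k * y + m + x / y) := by nlinarith
    calc (N : ℝ) ^ 2 * Real.exp (-(46 * (k * y + m + x / y)))
        ≤ (N : ℝ) ^ 2 * Real.exp (-(2 * x)) := by
          apply mul_le_mul_of_nonneg_left _ (by positivity)
          apply Real.exp_le_exp.2
          linarith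
      _ = 1 := by
          rw [← hexpx, ← Real.exp_nat_mul, ← Real.exp_add]
          norm_num
      _ ≤ W := by exact_mod_cast hW
  · rw [not_le] at hk
    have hkx : (k : ℝ) ≤ x := by
      have : x / y ≤ x := div_le_self hx0.le hy1
      linarith
    have hl1 : (l : ℝ) ≤ 2 * x := by
      have h1 : 2 ^ (Nat.log 2 N) ≤ N := Nat.pow_log_le_self 2 (by omega)
      have h2 : ((2 : ℝ)) ^ (Nat.log 2 N) ≤ N := by exact_mod_cast h1
      have h3 := Real.log_le_log (by positivity) h2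
      rw [Real.log_pow] at h3
      have h4 : (l : ℝ) = (Nat.log 2 N : ℝ) + 1 := by rw [hl]; push_cast; ring
      rw [h4]
      have h5 : (0 : ℝ) ≤ (Nat.log 2 N : ℝ) := Nat.cast_nonneg _
      nlinarith
    have hl2 : x ≤ l := by
      have h1 : N < 2 ^ (Nat.log 2 N + 1) := Nat.lt_pow_succ_log_self (by norm_num) N
      rw [← hl] at h1
      have h2 : (N : ℝ) ≤ (2 : ℝ) ^ l := by exact_mod_cast h1.le
      have h3 := Real.log_le_log hNpos h2
      rw [Real.log_pow] at h3
      have h5 : (0 : ℝ) ≤ (l : ℝ) := Nat.cast_nonneg _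
      nlinarith
    have hl0 : (0 : ℝ) < l := by linarith
    have hDx : (D : ℝ) ≤ x / y := by
      have h1 : l ^ D ≤ N := by
        rw [hD]
        exact Nat.pow_log_le_self l (by omega)
      have h2 : (l : ℝ) ^ D ≤ N := by exact_mod_cast h1
      have h3 := Real.log_le_log (by positivity) h2
      rw [Real.log_pow] at h3
      have h4 : y ≤ Real.log l := Real.log_le_log hx0 hl2
      rw [le_div_iff₀ hy0]
      have h5 : (0 : ℝ) ≤ (D : ℝ) := Nat.cast_nonneg _
      nlinarith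
    have hDx2 : (D : ℝ) ≤ x := hDx.trans (div_le_self hx0.le hy1)
    have hD0 : (0 : ℝ) ≤ D := Nat.cast_nonneg _
    -- powers of e
    have he : (2.7 : ℝ) ≤ Real.exp 1 := by have := Real.exp_one_gt_d9; linarith
    have he2 : (7 : ℝ) ≤ Real.exp 2 := by
      have : Real.exp 2 = Real.exp 1 ^ 2 := by rw [← Real.exp_nat_mul]; norm_num
      rw [this]
      calc (7 : ℝ) ≤ 2.7 ^ 2 := by norm_num
        _ ≤ _ := by gcongr
    have he3 : (16 : ℝ) ≤ Real.exp 3 := by
      have : Real.exp 3 = Real.exp 1 ^ 3 := by rw [← Real.exp_nat_mul]; norm_num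
      rw [this]
      calc (16 : ℝ) ≤ 2.7 ^ 3 := by norm_num
        _ ≤ _ := by gcongr
    have he5 : (102 : ℝ) ≤ Real.exp 5 := by
      have : Real.exp 5 = Real.exp 1 ^ 5 := by rw [← Real.exp_nat_mul]; norm_num
      rw [this]
      calc (102 : ℝ) ≤ 2.7 ^ 5 := by norm_num
        _ ≤ _ := by gcongr
    have hA : 8 * ((k : ℝ) + 1) ≤ Real.exp (4 * y) := by
      calc 8 * ((k : ℝ) + 1) ≤ 16 * x := by linarith
        _ ≤ Real.exp 3 * Real.exp y := by rw [hexpy]; gcongr
        _ = Real.exp (3 + y) := by rw [Real.exp_add]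
        _ ≤ Real.exp (4 * y) := Real.exp_le_exp.2 (by linarith)
    have hSx : (S : ℝ) ≤ 4 * x ^ 2 := by
      rw [hS]
      push_cast
      nlinarith
    have hS0 : (0 : ℝ) ≤ S := Nat.cast_nonneg _
    have hLx : 2 * (L : ℝ) ≤ 102 * x ^ 4 := by
      have h1 : (L : ℝ) = 2 * k * (2 * S + 1) + 2 * S ^ 2 + 1 := by rw [hL]; push_cast; ring
      rw [h1]
      have h2 : 2 * (S : ℝ) + 1 ≤ 9 * x ^ 2 := by nlinarith
      have h3 : 2 * (k : ℝ) * (2 * S + 1) ≤ 2 * x * (9 * x ^ 2) := by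
        apply mul_le_mul _ h2 (by positivity) (by positivity)
        linarith
      have h4 : (S : ℝ) ^ 2 ≤ (4 * x ^ 2) ^ 2 := by gcongr
      have h5 : x ^ 3 ≤ x ^ 4 := pow_le_pow_right₀ (by linarith) (by norm_num)
      have h6 : 1 ≤ x ^ 4 := one_le_pow₀ (by linarith)
      have h7 : 2 * x * (9 * x ^ 2) = 18 * x ^ 3 := by ring
      have h8 : (4 * x ^ 2) ^ 2 = 16 * x ^ 4 := by ring
      rw [h7] at h3
      rw [h8] at h4
      linarith
    have hB : 2 * (L : ℝ) ≤ Real.exp (9 * y) := by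
      calc 2 * (L : ℝ) ≤ 102 * x ^ 4 := hLx
        _ ≤ Real.exp 5 * Real.exp (4 * y) := by
            have h1 : Real.exp (4 * y) = x ^ 4 := by
              rw [← hexpy, ← Real.exp_nat_mul]; norm_num
            rw [h1]
            gcongr
        _ = Real.exp (5 + 4 * y) := by rw [Real.exp_add]
        _ ≤ Real.exp (9 * y) := Real.exp_le_exp.2 (by linarith)
    have hL1 : (1 : ℝ) ≤ L := by
      rw [hL]
      push_cast
      have : (0 : ℝ) ≤ 2 * k * (2 * S + 1) + 2 * S ^ 2 := by positivity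
      linarith
    have hB' : (L : ℝ) ≤ Real.exp (9 * y) := by linarith
    have hDD : 2 * ((D : ℝ) + 1) ≤ Real.exp (3 * y) := by
      calc 2 * ((D : ℝ) + 1) ≤ 7 * x := by linarith
        _ ≤ Real.exp 2 * Real.exp y := by rw [hexpy]; gcongr
        _ = Real.exp (2 + y) := by rw [Real.exp_add]
        _ ≤ Real.exp (3 * y) := Real.exp_le_exp.2 (by linarith)
    have f1 : (8 * ((k : ℝ) + 1)) ^ (2 * k) ≤ Real.exp (8 * (k * y)) := by
      calc (8 * ((k : ℝ) + 1)) ^ (2 * k) ≤ Real.exp (4 * y) ^ (2 * k) := by gcongr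
        _ = Real.exp (8 * (k * y)) := by
            rw [← Real.exp_nat_mul]; congr 1; push_cast; ring
    have f2 : (2 * (L : ℝ)) ^ (2 * k) ≤ Real.exp (18 * (k * y)) := by
      calc (2 * (L : ℝ)) ^ (2 * k) ≤ Real.exp (9 * y) ^ (2 * k) := by gcongr
        _ = Real.exp (18 * (k * y)) := by
            rw [← Real.exp_nat_mul]; congr 1; push_cast; ring
    have f3 : (2 * ((D : ℝ) + 1)) ^ k ≤ Real.exp (3 * (k * y)) := by
      calc (2 * ((D : ℝ) + 1)) ^ k ≤ Real.exp (3 * y) ^ k := by gcongr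
        _ = Real.exp (3 * (k * y)) := by
            rw [← Real.exp_nat_mul]; congr 1; ring
    have h2e : (2 : ℝ) ≤ Real.exp 1 := by linarith
    have f4 : (2 : ℝ) ^ (2 * D) ≤ Real.exp (2 * (x / y)) := by
      calc (2 : ℝ) ^ (2 * D) ≤ Real.exp 1 ^ (2 * D) := by gcongr
        _ = Real.exp (2 * D) := by
            rw [← Real.exp_nat_mul]; congr 1; push_cast; ring
        _ ≤ Real.exp (2 * (x / y)) := Real.exp_le_exp.2 (by linarith)
    have hky : (k : ℝ) ≤ k * y := le_mul_of_one_le_right hk0 hy1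
    have f5 : (2 : ℝ) ^ (8 * k + 10 * m) ≤ Real.exp (8 * (k * y) + 10 * m) := by
      calc (2 : ℝ) ^ (8 * k + 10 * m) ≤ Real.exp 1 ^ (8 * k + 10 * m) := by gcongr
        _ = Real.exp (8 * k + 10 * m) := by
            rw [← Real.exp_nat_mul]; congr 1; push_cast; ring
        _ ≤ Real.exp (8 * (k * y) + 10 * m) := Real.exp_le_exp.2 (by linarith)
    have f6 : (L : ℝ) ^ k + 1 ≤ 2 * Real.exp (9 * (k * y)) := by
      have h1 : (1 : ℝ) ≤ (L : ℝ) ^ k := one_le_pow₀ hL1
      have h2 : (L : ℝ) ^ k ≤ Real.exp (9 * (k * y)) := by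
        calc (L : ℝ) ^ k ≤ Real.exp (9 * y) ^ k := by gcongr
          _ = Real.exp (9 * (k * y)) := by
              rw [← Real.exp_nat_mul]; congr 1; ring
      linarith
    have hmainR : (N : ℝ) ^ 2 ≤ W * (8 * (8 * ((k : ℝ) + 1)) ^ (2 * k) * (2 * (L : ℝ)) ^ (2 * k) *
        (2 * ((D : ℝ) + 1)) ^ k * 2 ^ (2 * D) * 2 ^ (8 * k + 10 * m) * ((L : ℝ) ^ k + 1)) := by
      exact_mod_cast hmain
    have hW0 : (0 : ℝ) ≤ W := Nat.cast_nonneg _
    have hfac : 8 * (8 * ((k : ℝ) + 1)) ^ (2 * k) * (2 * (L : ℝ)) ^ (2 * k) *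
        (2 * ((D : ℝ) + 1)) ^ k * 2 ^ (2 * D) * 2 ^ (8 * k + 10 * m) * ((L : ℝ) ^ k + 1) ≤
        Real.exp (46 * (k * y + m + x / y)) := by
      calc _ ≤ 8 * Real.exp (8 * (k * y)) * Real.exp (18 * (k * y)) * Real.exp (3 * (k * y)) *
            Real.exp (2 * (x / y)) * Real.exp (8 * (k * y) + 10 * m) *
            (2 * Real.exp (9 * (k * y))) := by
            gcongr
        _ = 16 * Real.exp (8 * (k * y) + 18 * (k * y) + 3 * (k * y) + 2 * (x / y) +
            (8 * (k * y) + 10 * m) + 9 * (k * y)) := by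
            simp only [Real.exp_add]
            ring
        _ ≤ Real.exp 3 * Real.exp (8 * (k * y) + 18 * (k * y) + 3 * (k * y) + 2 * (x / y) +
            (8 * (k * y) + 10 * m) + 9 * (k * y)) := by gcongr
        _ = Real.exp (3 + (8 * (k * y) + 18 * (k * y) + 3 * (k * y) + 2 * (x / y) +
            (8 * (k * y) + 10 * m) + 9 * (k * y))) := (Real.exp_add _ _).symm
        _ ≤ _ := by
            apply Real.exp_le_exp.2
            nlinarith
    calc (N : ℝ) ^ 2 * Real.exp (-(46 * (k * y + m + x / y)))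
        ≤ (W * Real.exp (46 * (k * y + m + x / y))) * Real.exp (-(46 * (k * y + m + x / y))) := by
          gcongr
          exact hmainR.trans (mul_le_mul_of_nonneg_left hfac hW0)
      _ = W := by
          rw [mul_assoc, ← Real.exp_add]
          simp

end Pool.Agent.H116SP
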