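import Mathlib
import Pool.Agent.H116SP.Defs
import Pool.Agent.H116SP.M5
import Pool.Agent.H116SP.M6
import Pool.Agent.H116SP.M7
import Pool.Agent.H116SP.M8

/-! M9: assembly. -/

open Finset

namespace Pool.Agent.H116SP


theorem spec_numeric {N l : ℕ} (hl : 2 ≤ l) (hN : N < 2 ^ l) :
    N * (l - 1) ^ (l ^ 2 + 1) < l ^ (l ^ 2 + 1) := by
  obtain ⟨c, rfl⟩ : ∃ c, l = c + 1 := ⟨l - 1, by omega⟩
  simp only [Nat.add_sub_cancel]
  have hc : 1 ≤ c := by omega
  have h1 : 2 * c ^ (c + 1) ≤ (c + 1) ^ (c + 1) := by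
    have h2 : c ^ (c + 1) + (c + 1) * c ^ c ≤ (c + 1) ^ (c + 1) := by
      rw [add_pow c 1 (c + 1), sum_range_succ, sum_range_succ]
      simp only [one_pow, mul_one, Nat.sub_self, pow_zero, Nat.choose_self, Nat.cast_one,
        Nat.cast_id]
      have h4 : (c + 1).choose c = c + 1 := Nat.choose_succ_self_right c
      rw [h4]
      nlinarith [Nat.zero_le (∑ x ∈ range c, c ^ x * ((c + 1).choose x))]
    have h5 : c ^ (c + 1) = c * c ^ c := pow_succ' c c
    nlinarith [Nat.zero_le (c ^ c)]
  have h2 : 2 ^ (c + 1) * c ^ ((c + 1) ^ 2) ≤ (c + 1) ^ ((c + 1) ^ 2) := by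
    rw [sq, pow_mul, pow_mul, ← mul_pow]
    exact Nat.pow_le_pow_left h1 _
  have h3 : 0 < c ^ ((c + 1) ^ 2) := by positivity
  have h4 : N * c ^ ((c + 1) ^ 2) < (c + 1) ^ ((c + 1) ^ 2) :=
    lt_of_lt_of_le (Nat.mul_lt_mul_of_pos_right hN h3) h2
  rw [pow_succ, pow_succ, ← mul_assoc]
  calc N * c ^ ((c + 1) ^ 2) * c ≤ N * c ^ ((c + 1) ^ 2) * (c + 1) :=
        Nat.mul_le_mul_left _ (Nat.le_succ c)
    _ < (c + 1) ^ ((c + 1) ^ 2) * (c + 1) := Nat.mul_lt_mul_of_pos_right h4 (by omega)

theorem nat_case (A : Finset ℕ) (hA : 0 ∉ A) (k m N l D S L : ℕ) (hN : A.card = N) (hN4 : 4 ≤ N)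
    (hl : l = Nat.log 2 N + 1) (hD : D = Nat.log l N) (hS : S = l ^ 2)
    (hL : L = 2 * k * (2 * S + 1) + 2 * S ^ 2 + 1)
    (hT : ∀ a ∈ A, ∃ T : Finset ℕ, T.card ≤ k ∧
      ∑ p ∈ a.primeFactors \ T, a.factorization p ≤ m) :
    N ^ 2 ≤ max (sums A).card (prods A).card *
      (8 * (8 * (k + 1)) ^ (2 * k) * (2 * L) ^ (2 * k) * (2 * (D + 1)) ^ k *
      2 ^ (2 * D) * 2 ^ (8 * k + 10 * m) * (L ^ k + 1)) := by
  classical
  have hl3 : 3 ≤ l := by
    rw [hl]
    have : Nat.log 2 4 ≤ Nat.log 2 N := Nat.log_mono_right hN4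
    have h4 : Nat.log 2 4 = 2 := by norm_num [Nat.log_eq_iff]
    omega
  have hne : A.Nonempty := by rw [← card_pos, hN]; omega
  have hN2 : N < 2 ^ l := by rw [hl]; exact Nat.lt_pow_succ_log_self (by norm_num) N
  have hND : N < l ^ (D + 1) := by rw [hD]; exact Nat.lt_pow_succ_log_self (by omega) N
  have hNS : N * (l - 1) ^ (S + 1) < l ^ (S + 1) := by rw [hS]; exact spec_numeric (by omega) hN2
  have hL1 : 1 ≤ L := by rw [hL]; exact Nat.le_add_left _ _
  -- choose `T`
  have hT' : ∀ a, ∃ T : Finset ℕ, a ∈ A → T ⊆ a.primeFactors ∧ T.card ≤ k ∧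
      ∑ p ∈ a.primeFactors \ T, a.factorization p ≤ m := by
    intro a
    by_cases ha : a ∈ A
    · obtain ⟨T, h1, h2⟩ := hT a ha
      refine ⟨T ∩ a.primeFactors, fun _ => ⟨inter_subset_right,
        (card_le_card inter_subset_left).trans h1, ?_⟩⟩
      have : a.primeFactors \ (T ∩ a.primeFactors) = a.primeFactors \ T := by
        ext p; simp only [mem_sdiff, mem_inter]; tauto
      rw [this]; exact h2
    · exact ⟨∅, fun h => absurd h ha⟩
  choose T hT' using hT'
  set Lam := 8 * (k + 1) with hLam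
  have hLam1 : 1 ≤ Lam := by omega
  rcases products_or_fibres A hA hne k m (L ^ k + 1) (by omega) T (fun a ha => (hT' a ha).1)
    (fun a ha => (hT' a ha).2.1) (fun a ha => (hT' a ha).2.2) with h | h
  · rw [hN, ← hLam] at h
    have h1 : N ^ 2 ≤ 8 * (prods A).card * (Lam ^ (2 * k) * 2 ^ (8 * k + 10 * m) * (L ^ k + 1)) := by
      omega
    refine h1.trans ?_
    have h2 : 1 ≤ (2 * L) ^ (2 * k) * (2 * (D + 1)) ^ k * 2 ^ (2 * D) :=
      Nat.mul_pos (Nat.mul_pos (by positivity) (by positivity)) (by positivity)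
    calc 8 * (prods A).card * (Lam ^ (2 * k) * 2 ^ (8 * k + 10 * m) * (L ^ k + 1))
        = (prods A).card * (8 * Lam ^ (2 * k) * 2 ^ (8 * k + 10 * m) * (L ^ k + 1)) * 1 := by ring
      _ ≤ max (sums A).card (prods A).card *
          (8 * Lam ^ (2 * k) * 2 ^ (8 * k + 10 * m) * (L ^ k + 1)) *
          ((2 * L) ^ (2 * k) * (2 * (D + 1)) ^ k * 2 ^ (2 * D)) :=
          Nat.mul_le_mul (Nat.mul_le_mul_right _ (le_max_right _ _)) h2
      _ = _ := by ring
  · obtain ⟨J, A', hA'A, hA'ne, hJk, hJp, hcard, hfib⟩ := h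
    rw [hN, ← hLam] at hcard
    have hA'0 : 0 ∉ A' := fun h => hA (hA'A h)
    obtain ⟨J', A'', hJ'J, hJ'ne, hA'', hcard', hspread⟩ := regularise A' J L hL1 hA'0 hJp hA'ne
      (fun a ha => by
        have h1 := hfib a ha
        have h2 : L ^ J.card ≤ L ^ k := Nat.pow_le_pow_right hL1 hJk
        omega)
    have hA''0 : 0 ∉ A'' := fun h => hA'0 (hA'' h)
    have hc : A''.card ≤ N := by rw [← hN]; exact card_le_card (hA''.trans hA'A)
    have hJ'k : J'.card ≤ k := (card_le_card hJ'J).trans hJk
    have hs := sums_of_spread A'' J' hA''0 (fun p hp => hJp p (hJ'J hp)) hJ'ne l D S L hl3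
      (lt_of_le_of_lt hc hND) (lt_of_le_of_lt (Nat.mul_le_mul_right _ hc) hNS)
      (by
        rw [hL]
        have h1 : 2 * J'.card * (2 * S + 1) ≤ 2 * k * (2 * S + 1) :=
          Nat.mul_le_mul_right _ (Nat.mul_le_mul_left _ hJ'k)
        omega) hspread
    have hsub : (sums A'').card ≤ (sums A).card := by
      refine card_le_card ?_
      unfold sums
      exact image_subset_image (product_subset_product (hA''.trans hA'A) (hA''.trans hA'A))
    have e1 : A'.card ≤ A''.card * (2 * L) ^ k :=
      hcard'.trans (Nat.mul_le_mul_left _ (Nat.pow_le_pow_right (by omega) hJk))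
    have e2 : (2 * (D + 1)) ^ J'.card ≤ (2 * (D + 1)) ^ k :=
      Nat.pow_le_pow_right (by omega) hJ'k
    have e3 : N ≤ 2 * (A''.card * (2 * L) ^ k) * Lam ^ k :=
      hcard.trans (Nat.mul_le_mul_right _ (Nat.mul_le_mul_left _ e1))
    have e4 : 1 ≤ 2 ^ (8 * k + 10 * m) * (L ^ k + 1) :=
      Nat.mul_pos (by positivity) (by positivity)
    calc N ^ 2 ≤ (2 * (A''.card * (2 * L) ^ k) * Lam ^ k) ^ 2 := Nat.pow_le_pow_left e3 2
      _ = 4 * Lam ^ (2 * k) * (2 * L) ^ (2 * k) * A''.card ^ 2 := by ring
      _ ≤ 4 * Lam ^ (2 * k) * (2 * L) ^ (2 * k) *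
          (2 * (sums A'').card * ((2 * (D + 1)) ^ J'.card * 2 ^ (2 * D))) :=
          Nat.mul_le_mul_left _ hs
      _ ≤ 4 * Lam ^ (2 * k) * (2 * L) ^ (2 * k) *
          (2 * max (sums A).card (prods A).card * ((2 * (D + 1)) ^ k * 2 ^ (2 * D))) := by
          refine Nat.mul_le_mul_left _ (Nat.mul_le_mul ?_ (Nat.mul_le_mul_right _ e2))
          exact Nat.mul_le_mul_left _ (hsub.trans (le_max_left _ _))
      _ = max (sums A).card (prods A).card *
          (8 * Lam ^ (2 * k) * (2 * L) ^ (2 * k) * (2 * (D + 1)) ^ k * 2 ^ (2 * D)) * 1 := by ring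
      _ ≤ max (sums A).card (prods A).card *
          (8 * Lam ^ (2 * k) * (2 * L) ^ (2 * k) * (2 * (D + 1)) ^ k * 2 ^ (2 * D)) *
          (2 ^ (8 * k + 10 * m) * (L ^ k + 1)) := Nat.mul_le_mul_left _ e4
      _ = _ := by ring

/-- the bound as a function of a real variable -/
noncomputable def bnd (C : ℝ) (k m : ℕ) (N : ℝ) : ℝ :=
  N ^ 2 * Real.exp (-(C * (k * Real.log (Real.log N) + m + Real.log N / Real.log (Real.log N))))

theorem nat_bound : ∃ C : ℝ, 0 < C ∧ ∀ (A : Finset ℕ) (k m : ℕ), 0 ∉ A → 16 ≤ A.card →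
    (∀ a ∈ A, ∃ T : Finset ℕ, T.card ≤ k ∧
      ∑ p ∈ a.primeFactors \ T, a.factorization p ≤ m) →
    bnd C k m A.card ≤ max (sums A).card (prods A).card := by
  obtain ⟨C, hC, h⟩ := numerics
  refine ⟨C, hC, fun A k m hA hN hT => ?_⟩
  have h1 := nat_case A hA k m A.card (Nat.log 2 A.card + 1) _ _ _ rfl (by omega) rfl rfl rfl rfl hT
  have hne : A.Nonempty := by rw [← card_pos]; omega
  have hW : 1 ≤ max (sums A).card (prods A).card := by
    refine le_trans ?_ (le_max_left _ _)
    rw [Nat.one_le_iff_ne_zero, ← Nat.pos_iff_ne_zero, card_pos]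
    exact (hne.product hne).image _
  have h2 := h A.card k m _ _ _ _ _ hN hW rfl rfl rfl rfl h1
  unfold bnd
  exact_mod_cast h2

theorem bnd_mono {C : ℝ} (hC : 0 < C) (k m : ℕ) {n N : ℝ} (h1 : 31 ≤ n) (h2 : n ≤ N)
    (h3 : N ≤ 3 * n) : bnd (C + 3) k m N ≤ bnd C k m n := by
  have e3 : Real.exp 1 < 2.7182818286 := Real.exp_one_lt_d9
  have hn0 : 0 < n := by linarith
  have hN0 : 0 < N := by linarith
  have hln : Real.exp 1 ≤ Real.log n := by
    have h4 : Real.exp (Real.exp 1) ≤ n := by
      have h5 : Real.exp (Real.exp 1) ≤ Real.exp (1 + 1 + 3 / 4) := Real.exp_le_exp.mpr (by linarith)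
      have h6 : Real.exp (1 + 1 + 3 / 4) = Real.exp 1 * Real.exp 1 * Real.exp (3 / 4) := by
        rw [Real.exp_add, Real.exp_add]
      have h7 : Real.exp (3 / 4) ≤ Real.exp 1 := Real.exp_le_exp.mpr (by norm_num)
      have h8 : (0 : ℝ) < Real.exp 1 := Real.exp_pos 1
      have h9 : Real.exp 1 * Real.exp 1 * Real.exp (3 / 4) ≤ 2.72 * 2.72 * 2.72 := by
        have := Real.exp_pos (3 / 4 : ℝ)
        gcongr <;> linarith
      nlinarith
    rw [Real.le_log_iff_exp_le hn0]
    exact h4
  have hlN : Real.exp 1 ≤ Real.log N := hln.trans (Real.log_le_log hn0 h2)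
  have hlnN : Real.log n ≤ Real.log N := Real.log_le_log hn0 h2
  have he : (0 : ℝ) < Real.exp 1 := Real.exp_pos 1
  have hlln : 1 ≤ Real.log (Real.log n) := by
    rw [Real.le_log_iff_exp_le (by linarith)]; exact hln
  have hllN : 1 ≤ Real.log (Real.log N) := by
    rw [Real.le_log_iff_exp_le (by linarith)]; exact hlN
  have hll : Real.log (Real.log n) ≤ Real.log (Real.log N) :=
    Real.log_le_log (by linarith) hlnN
  have hq : Real.log n / Real.log (Real.log n) ≤ Real.log N / Real.log (Real.log N) := by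
    have h4 := Real.log_div_self_antitoneOn (Set.mem_setOf_eq ▸ hln) (Set.mem_setOf_eq ▸ hlN) hlnN
    simp only at h4
    rw [div_le_div_iff₀ (by linarith) (by linarith)]
    rw [div_le_div_iff₀ (by linarith) (by linarith)] at h4
    nlinarith
  have hq1 : 1 ≤ Real.log N / Real.log (Real.log N) := by
    rw [le_div_iff₀ (by linarith), one_mul]
    have := Real.log_le_sub_one_of_pos (show 0 < Real.log N by linarith)
    linarith
  unfold bnd
  have h9 : Real.exp (-3) ≤ 1 / 9 := by
    have h5 : (9 : ℝ) ≤ Real.exp 3 := by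
      have h6 : Real.exp 3 = Real.exp 1 * Real.exp 1 * Real.exp 1 := by
        rw [← Real.exp_add, ← Real.exp_add]; norm_num
      have h7 : (2.7182818283 : ℝ) < Real.exp 1 := Real.exp_one_gt_d9
      rw [h6]
      nlinarith [mul_pos he he]
    rw [Real.exp_neg, ← one_div]
    exact one_div_le_one_div_of_le (by norm_num) h5
  have h10 : N ^ 2 * Real.exp (-3) ≤ n ^ 2 := by
    have : N ^ 2 ≤ 9 * n ^ 2 := by nlinarith
    have h11 := Real.exp_pos (-3 : ℝ)
    nlinarith
  calc N ^ 2 * Real.exp (-((C + 3) * (k * Real.log (Real.log N) + m +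
        Real.log N / Real.log (Real.log N))))
      ≤ N ^ 2 * Real.exp (-3 + -(C * (k * Real.log (Real.log n) + m +
        Real.log n / Real.log (Real.log n)))) := by
        refine mul_le_mul_of_nonneg_left (Real.exp_le_exp.mpr ?_) (by positivity)
        have hk : (0 : ℝ) ≤ k := Nat.cast_nonneg k
        have hm : (0 : ℝ) ≤ m := Nat.cast_nonneg m
        have a1 : (k : ℝ) * Real.log (Real.log n) ≤ k * Real.log (Real.log N) :=
          mul_le_mul_of_nonneg_left hll hk
        have a2 : C * (k * Real.log (Real.log n) + m + Real.log n / Real.log (Real.log n)) ≤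
            C * (k * Real.log (Real.log N) + m + Real.log N / Real.log (Real.log N)) :=
          mul_le_mul_of_nonneg_left (by linarith) hC.le
        have a3 : 0 ≤ (k : ℝ) * Real.log (Real.log N) := mul_nonneg hk (by linarith)
        nlinarith
    _ = (N ^ 2 * Real.exp (-3)) * Real.exp (-(C * (k * Real.log (Real.log n) + m +
        Real.log n / Real.log (Real.log n)))) := by rw [Real.exp_add]; ring
    _ ≤ _ := mul_le_mul_of_nonneg_right h10 (Real.exp_pos _).le

open scoped Pointwise in
theorem int_bound : ∃ C : ℝ, 0 < C ∧ ∀ (A : Finset ℤ) (k m : ℕ), 16 ≤ A.card →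
    (∀ a ∈ A, a ≠ 0 → ∃ T : Finset ℕ, T.card ≤ k ∧
      ∑ p ∈ a.natAbs.primeFactors \ T, a.natAbs.factorization p ≤ m) →
    bnd C k m A.card ≤ max (A + A).card (A * A).card := by
  classical
  obtain ⟨C, hC, h⟩ := nat_bound
  refine ⟨max (C + 3) 9, by positivity, fun A k m hN hT => ?_⟩
  have hne : A.Nonempty := by rw [← card_pos]; omega
  have hW : 1 ≤ max (A + A).card (A * A).card := by
    refine le_trans ?_ (le_max_left _ _)
    rw [Nat.one_le_iff_ne_zero, ← Nat.pos_iff_ne_zero, card_pos]
    exact hne.add hne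
  have hW' : (1 : ℝ) ≤ ((max (A + A).card (A * A).card : ℕ) : ℝ) := by exact_mod_cast hW
  -- monotonicity in `C`
  have hCmono : ∀ C₁ C₂ : ℝ, C₁ ≤ C₂ → bnd C₂ k m A.card ≤ bnd C₁ k m A.card := by
    intro C₁ C₂ h12
    unfold bnd
    refine mul_le_mul_of_nonneg_left (Real.exp_le_exp.mpr ?_) (by positivity)
    have hN' : (16 : ℝ) ≤ A.card := by exact_mod_cast hN
    have e3 : Real.exp 1 < 2.7182818286 := Real.exp_one_lt_d9
    have h1 : 1 ≤ Real.log A.card := by
      rw [Real.le_log_iff_exp_le (by linarith)]; linarith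
    have h2 : 0 ≤ Real.log (Real.log A.card) := Real.log_nonneg h1
    have h3 : 0 ≤ (k : ℝ) * Real.log (Real.log A.card) + m +
        Real.log A.card / Real.log (Real.log A.card) := by positivity
    nlinarith
  rcases lt_or_ge A.card 64 with hlt | hge
  · -- small sets
    have h1 : bnd (max (C + 3) 9) k m A.card ≤ bnd 9 k m A.card := hCmono _ _ (le_max_right _ _)
    have h2 : bnd 9 k m A.card ≤ 1 := by
      unfold bnd
      have hN' : (16 : ℝ) ≤ A.card := by exact_mod_cast hN
      have hN'' : (A.card : ℝ) ≤ 64 := by exact_mod_cast hlt.le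
      have e3 : Real.exp 1 < 2.7182818286 := Real.exp_one_lt_d9
      have e4 : (2.7182818283 : ℝ) < Real.exp 1 := Real.exp_one_gt_d9
      have h1 : 1 ≤ Real.log A.card := by
        rw [Real.le_log_iff_exp_le (by linarith)]; linarith
      have h1' : 1 < Real.log A.card := by
        rw [Real.lt_log_iff_exp_lt (by linarith)]; linarith
      have h2 : 0 < Real.log (Real.log A.card) := Real.log_pos h1'
      have h3 : 1 ≤ Real.log A.card / Real.log (Real.log A.card) := by
        rw [le_div_iff₀ h2, one_mul]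
        have := Real.log_le_sub_one_of_pos (show 0 < Real.log A.card by linarith)
        linarith
      have h4 : Real.exp (-(9 * (k * Real.log (Real.log A.card) + m +
          Real.log A.card / Real.log (Real.log A.card)))) ≤ Real.exp (-9) := by
        refine Real.exp_le_exp.mpr ?_
        have : 0 ≤ (k : ℝ) * Real.log (Real.log A.card) := by positivity
        have hm : (0 : ℝ) ≤ m := Nat.cast_nonneg m
        linarith
      have h5 : (4096 : ℝ) ≤ Real.exp 9 := by
        have h6 : Real.exp 9 = Real.exp 1 ^ 9 := by rw [← Real.exp_nat_mul]; norm_num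
        rw [h6]
        calc (4096 : ℝ) ≤ 2.7 ^ 9 := by norm_num
          _ ≤ _ := pow_le_pow_left₀ (by norm_num) (by linarith) 9
      have h6 : Real.exp (-9) ≤ 1 / 4096 := by
        rw [Real.exp_neg, ← one_div]
        exact one_div_le_one_div_of_le (by norm_num) h5
      calc (A.card : ℝ) ^ 2 * _ ≤ 64 ^ 2 * (1 / 4096) := by
            refine mul_le_mul (pow_le_pow_left₀ (by positivity) hN'' 2) (h4.trans h6)
              (Real.exp_pos _).le (by norm_num)
        _ = 1 := by norm_num
    push_cast at hW' ⊢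
    linarith
  · -- positive and negative parts
    set Ap := A.filter fun a => 0 < a with hAp
    set An := A.filter fun a => a < 0 with hAn
    have hcard : A.card ≤ Ap.card + An.card + 1 := by
      have h1 : A ⊆ (Ap ∪ An) ∪ {0} := by
        intro a ha
        simp only [mem_union, mem_singleton, hAp, hAn, mem_filter]
        rcases lt_trichotomy a 0 with h | h | h
        · exact Or.inl (Or.inr ⟨ha, h⟩)
        · exact Or.inr h
        · exact Or.inl (Or.inl ⟨ha, h⟩)
      refine (card_le_card h1).trans ((card_union_le _ _).trans ?_)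
      rw [card_singleton]
      exact Nat.add_le_add_right (card_union_le _ _) 1
    -- the general transfer
    have key : ∀ (e : ℤ) (B : Finset ℤ), (e = 1 ∨ e = -1) → B ⊆ A → (∀ b ∈ B, 0 < e * b) →
        31 ≤ B.card → A.card ≤ 3 * B.card →
        bnd (C + 3) k m A.card ≤ max (A + A).card (A * A).card := by
      intro e B he hBA hB h31 h3
      have hee : e * e = 1 := by rcases he with rfl | rfl <;> norm_num
      have habs : ∀ b ∈ B, (b.natAbs : ℤ) = e * b := by
        intro b hb
        have := hB b hb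
        rcases he with rfl | rfl
        · omega
        · omega
      have hinj : Set.InjOn Int.natAbs (B : Set ℤ) := by
        intro x hx y hy hxy
        have h1 := habs x hx
        have h2 := habs y hy
        rw [hxy, h2] at h1
        have h3 : e * (e * y) = e * (e * x) := by rw [h1]
        rw [← mul_assoc, ← mul_assoc, hee, one_mul, one_mul] at h3
        exact h3.symm
      have hBc : (B.image Int.natAbs).card = B.card := card_image_of_injOn hinj
      have h0 : 0 ∉ B.image Int.natAbs := by
        intro h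
        obtain ⟨b, hb, hb0⟩ := mem_image.mp h
        have := hB b hb
        rw [Int.natAbs_eq_zero.mp hb0, mul_zero] at this
        exact lt_irrefl _ this
      have h1 := h (B.image Int.natAbs) k m h0 (by rw [hBc]; omega) (by
        intro a ha
        obtain ⟨b, hb, rfl⟩ := mem_image.mp ha
        refine hT b (hBA hb) ?_
        rintro rfl
        have := hB 0 hb
        rw [mul_zero] at this
        exact lt_irrefl _ this)
      rw [hBc] at h1
      have hs : (sums (B.image Int.natAbs)).card ≤ (A + A).card := by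
        refine card_le_card_of_injOn (fun n => e * (n : ℤ)) ?_ ?_
        · intro n hn
          unfold sums at hn
          rw [mem_coe, mem_image] at hn
          obtain ⟨⟨x, y⟩, hxy, rfl⟩ := hn
          rw [mem_product] at hxy
          obtain ⟨b, hb, hb'⟩ := mem_image.mp hxy.1
          obtain ⟨c, hc, hc'⟩ := mem_image.mp hxy.2
          simp only at hb' hc'
          rw [mem_coe, mem_add]
          refine ⟨b, hBA hb, c, hBA hc, ?_⟩
          simp only
          rw [← hb', ← hc']
          push_cast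
          have e1 := habs b hb
          have e2 := habs c hc
          rw [Int.natCast_natAbs] at e1 e2
          rw [e1, e2]
          linear_combination (-(b + c)) * hee
        · intro x _ y _ hxy
          simp only at hxy
          have : e * (e * (x : ℤ)) = e * (e * (y : ℤ)) := by rw [hxy]
          rw [← mul_assoc, ← mul_assoc, hee, one_mul, one_mul] at this
          exact_mod_cast this
      have hp : (prods (B.image Int.natAbs)).card ≤ (A * A).card := by
        refine card_le_card_of_injOn (fun n => (n : ℤ)) ?_ ?_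
        · intro n hn
          unfold prods at hn
          rw [mem_coe, mem_image] at hn
          obtain ⟨⟨x, y⟩, hxy, rfl⟩ := hn
          rw [mem_product] at hxy
          obtain ⟨b, hb, hb'⟩ := mem_image.mp hxy.1
          obtain ⟨c, hc, hc'⟩ := mem_image.mp hxy.2
          simp only at hb' hc'
          rw [mem_coe, mem_mul]
          refine ⟨b, hBA hb, c, hBA hc, ?_⟩
          simp only
          rw [← hb', ← hc']
          push_cast
          have e1 := habs b hb
          have e2 := habs c hc
          rw [Int.natCast_natAbs] at e1 e2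
          rw [e1, e2]
          linear_combination (-(b * c)) * hee
        · intro x _ y _ hxy
          simp only at hxy
          exact_mod_cast hxy
      have h4 : bnd (C + 3) k m A.card ≤ bnd C k m B.card := by
        refine bnd_mono hC k m ?_ ?_ ?_
        · exact_mod_cast h31
        · exact_mod_cast card_le_card hBA
        · exact_mod_cast h3
      refine h4.trans (h1.trans ?_)
      exact_mod_cast max_le_max hs hp
    have h1 : bnd (max (C + 3) 9) k m A.card ≤ bnd (C + 3) k m A.card :=
      hCmono _ _ (le_max_left _ _)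
    refine h1.trans ?_
    rcases le_total An.card Ap.card with hle | hle
    · exact key 1 Ap (Or.inl rfl) (filter_subset _ _)
        (fun b hb => by rw [one_mul]; exact (mem_filter.mp hb).2) (by omega) (by omega)
    · exact key (-1) An (Or.inr rfl) (filter_subset _ _)
        (fun b hb => by have := (mem_filter.mp hb).2; omega) (by omega) (by omega)

end Pool.Agent.H116SP
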